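import Mathlib

/-!
Cyclically reduced words in the same conjugacy class are rotations of each other.
-/

set_option autoImplicit false

namespace Pool.Agent.Growth56

open FreeGroup List

variable {α : Type*} [DecidableEq α]

theorem getLast?_append_ne {β : Type*} (A : List β) {B : List β} (hB : B ≠ []) :
    (A ++ B).getLast? = B.getLast? := by
  obtain ⟨S, c, rfl⟩ : ∃ S c, B = S ++ [c] := by
    rcases List.eq_nil_or_concat B with h | ⟨S, c, h⟩
    · exact absurd h hB
    · exact ⟨S, c, by rw [h, List.concat_eq_append]⟩
  rw [← List.append_assoc, List.getLast?_append, List.getLast?_append]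
  simp

theorem head?_append_ne {β : Type*} {A : List β} (B : List β) (hA : A ≠ []) :
    (A ++ B).head? = A.head? := by
  cases A with
  | nil => exact absurd rfl hA
  | cons a A => rfl

omit [DecidableEq α] in
theorem cyc_append_iff {A B : List (α × Bool)} (hA : A ≠ []) (hB : B ≠ []) :
    IsCyclicallyReduced (A ++ B) ↔ FreeGroup.IsReduced A ∧ FreeGroup.IsReduced B ∧
      (∀ x ∈ A.getLast?, ∀ y ∈ B.head?, x.1 = y.1 → x.2 = y.2) ∧
      (∀ x ∈ B.getLast?, ∀ y ∈ A.head?, x.1 = y.1 → x.2 = y.2) := by
  rw [isCyclicallyReduced_iff, FreeGroup.IsReduced, List.isChain_append,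
    getLast?_append_ne A hB, head?_append_ne B hA]
  unfold FreeGroup.IsReduced
  tauto

omit [DecidableEq α] in
theorem cyc_append_comm {A B : List (α × Bool)} (hA : A ≠ []) (hB : B ≠ [])
    (h : IsCyclicallyReduced (A ++ B)) : IsCyclicallyReduced (B ++ A) := by
  rw [cyc_append_iff hA hB] at h
  rw [cyc_append_iff hB hA]
  tauto

omit [DecidableEq α] in
theorem cyc_rotate {b : α × Bool} {T : List (α × Bool)} (h : IsCyclicallyReduced (b :: T)) :
    IsCyclicallyReduced (T ++ [b]) := by
  cases T with
  | nil => simp
  | cons c S => exact cyc_append_comm (A := [b]) (B := c :: S) (by simp) (by simp) h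

omit [DecidableEq α] in
theorem cyc_rotate' {c : α × Bool} {T : List (α × Bool)} (h : IsCyclicallyReduced (T ++ [c])) :
    IsCyclicallyReduced (c :: T) := by
  cases T with
  | nil => simp
  | cons b S => exact cyc_append_comm (A := b :: S) (B := [c]) (by simp) (by simp) h

omit [DecidableEq α] in
theorem mk_cancel (a : α × Bool) : (mk [a])⁻¹ = mk [(a.1, !a.2)] := by
  rw [inv_mk]
  rfl

theorem isRotated_of_conj (g : List (α × Bool)) :
    ∀ (L L' : List (α × Bool)), FreeGroup.IsReduced g → IsCyclicallyReduced L →
      IsCyclicallyReduced L' → mk L' = mk g * mk L * (mk g)⁻¹ → L ~r L' := by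
  induction g using List.reverseRecOn with
  | nil =>
    intro L L' _ hL hL' h
    rw [← one_eq_mk, one_mul, inv_one, mul_one] at h
    have h1 := congrArg toWord h
    rw [toWord_mk, toWord_mk, hL.isReduced.reduce_eq, hL'.isReduced.reduce_eq] at h1
    rw [h1]
  | append_singleton g a ih =>
    intro L L' hg hL hL' h
    have hg' : FreeGroup.IsReduced g := List.IsChain.left_of_append hg
    have hmk : mk (g ++ [a]) = mk g * mk [a] := by rw [mul_mk]
    rcases L with _ | ⟨b, T⟩
    · rw [← one_eq_mk, mul_one, mul_inv_cancel] at h
      have h1 := congrArg toWord h
      rw [toWord_mk, hL'.isReduced.reduce_eq, toWord_one] at h1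
      rw [h1]
    · by_cases hb : b = (a.1, !a.2)
      · -- rotate from the front
        have h1 : mk L' = mk g * mk (T ++ [b]) * (mk g)⁻¹ := by
          rw [h, hmk]
          have e1 : mk (b :: T) = mk [b] * mk T := by rw [mul_mk]; rfl
          have e2 : mk (T ++ [b]) = mk T * mk [b] := by rw [mul_mk]
          rw [e1, e2, hb, ← mk_cancel]
          group
        have h2 := ih (T ++ [b]) L' hg' (cyc_rotate hL) hL' h1
        refine List.IsRotated.trans ?_ h2
        exact ⟨1, by simp⟩
      · obtain ⟨S, c, hS⟩ : ∃ S c, b :: T = S ++ [c] := by
          rcases List.eq_nil_or_concat (b :: T) with h | ⟨S, c, h⟩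
          · simp at h
          · exact ⟨S, c, by rw [h, List.concat_eq_append]⟩
        by_cases hc : c = a
        · -- rotate from the back
          have h1 : mk L' = mk g * mk (c :: S) * (mk g)⁻¹ := by
            rw [h, hmk, hS]
            have e1 : mk (c :: S) = mk [c] * mk S := by rw [mul_mk]; rfl
            have e2 : mk (S ++ [c]) = mk S * mk [c] := by rw [mul_mk]
            rw [e1, e2, hc]
            group
          rw [hS] at hL ⊢
          have h2 := ih (c :: S) L' hg' (cyc_rotate' hL) hL' h1
          refine List.IsRotated.trans ?_ h2
          exact (List.IsRotated.symm ⟨1, by simp⟩)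
        · -- no cancellation: contradiction
          exfalso
          have hne : (g ++ [a]) ≠ [] := by simp
          have hinv : mk L' = mk ((g ++ [a]) ++ (b :: T) ++ invRev (g ++ [a])) := by
            rw [h, inv_mk, mul_mk, mul_mk]
          have hred : FreeGroup.IsReduced ((g ++ [a]) ++ (b :: T) ++ invRev (g ++ [a])) := by
            have hinvred : FreeGroup.IsReduced (invRev (g ++ [a])) := by
              rw [isReduced_iff_reduce_eq, reduce_invRev, hg.reduce_eq]
            unfold FreeGroup.IsReduced at *
            rw [List.isChain_append, List.isChain_append]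
            refine ⟨⟨hg, hL.isReduced, ?_⟩, hinvred, ?_⟩
            · intro x hx y hy
              rw [getLast?_append_ne g (by simp)] at hx
              simp only [List.getLast?_singleton, Option.mem_def, Option.some.injEq,
                List.head?_cons] at hx hy
              subst hx hy
              intro h3
              by_contra h4
              apply hb
              ext
              · exact h3.symm
              · simp only
                cases h5 : a.2 <;> cases h6 : b.2 <;> simp_all
            · intro x hx y hy
              rw [getLast?_append_ne _ (by simp), hS, getLast?_append_ne S (by simp)] at hx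
              have hy' : invRev (g ++ [a]) = (a.1, !a.2) :: invRev g := by
                simp [invRev]
              rw [hy'] at hy
              simp only [List.getLast?_singleton, Option.mem_def, Option.some.injEq,
                List.head?_cons] at hx hy
              subst hx hy
              intro h3
              by_contra h4
              apply hc
              ext
              · exact h3
              · simp only at h4
                cases h5 : a.2 <;> cases h6 : c.2 <;> simp_all
          have h1 := congrArg toWord hinv
          rw [toWord_mk, toWord_mk, hL'.isReduced.reduce_eq, hred.reduce_eq] at h1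
          -- compare first and last letters
          obtain ⟨f, G, hfG⟩ : ∃ f G, g ++ [a] = f :: G := by
            cases g with
            | nil => exact ⟨a, [], rfl⟩
            | cons f G => exact ⟨f, G ++ [a], rfl⟩
          rw [hfG] at h1
          have hcyc := hL'.2
          rw [h1] at hcyc
          have e3 : (f :: G ++ b :: T ++ invRev (f :: G)).getLast? = some (f.1, !f.2) := by
            have : invRev (f :: G) = invRev G ++ [(f.1, !f.2)] := by simp [invRev]
            rw [this, ← List.append_assoc, getLast?_append_ne _ (by simp)]
            rfl
          have e4 : (f :: G ++ b :: T ++ invRev (f :: G)).head? = some f := rfl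
          have := hcyc (f.1, !f.2) (by rw [e3]; rfl) f (by rw [e4]; rfl) rfl
          simp at this

end Pool.Agent.Growth56
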