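import Mathlib

/-!
Lower bound for the number of occurrences of a letter in the automorphic orbit of
`x_1 ^ p ⋯ x_k ^ p`: Fox calculus with coefficients in power series over `ZMod p`.
-/

set_option autoImplicit false

namespace Pool.Agent.Growth56

open PowerSeries

/-- The affine group over a ring. -/
@[ext] structure Aff (R : Type*) [CommRing R] where
  u : Rˣ
  d : R

namespace Aff

variable {R : Type*} [CommRing R]

instance : Mul (Aff R) := ⟨fun x y => ⟨x.u * y.u, x.d + x.u * y.d⟩⟩
instance : One (Aff R) := ⟨⟨1, 0⟩⟩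
instance : Inv (Aff R) := ⟨fun x => ⟨x.u⁻¹, -((x.u⁻¹ : Rˣ) * x.d)⟩⟩

@[simp] theorem mul_u (x y : Aff R) : (x * y).u = x.u * y.u := rfl
@[simp] theorem mul_d (x y : Aff R) : (x * y).d = x.d + x.u * y.d := rfl
@[simp] theorem one_u : (1 : Aff R).u = 1 := rfl
@[simp] theorem one_d : (1 : Aff R).d = 0 := rfl
@[simp] theorem inv_u (x : Aff R) : (x⁻¹).u = x.u⁻¹ := rfl
@[simp] theorem inv_d (x : Aff R) : (x⁻¹).d = -((x.u⁻¹ : Rˣ) * x.d) := rfl

instance : Group (Aff R) :=
  Group.ofLeftAxioms
    (by intro x y z; ext <;> simp [mul_assoc, mul_add, add_assoc])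
    (by intro x; ext <;> simp)
    (by intro x; ext <;> simp)

/-- The linear part. -/
def uHom : Aff R →* Rˣ where
  toFun := Aff.u
  map_one' := rfl
  map_mul' _ _ := rfl

theorem pow_d (x : Aff R) (n : ℕ) : (x ^ n).d = (∑ i ∈ Finset.range n, (x.u : R) ^ i) * x.d := by
  induction n with
  | zero => simp
  | succ n ih =>
    have hu : (x ^ n).u = x.u ^ n := map_pow uHom x n
    rw [pow_succ, mul_d, ih, hu, Finset.sum_range_succ, add_mul]
    simp

end Aff

section heights

variable {α : Type*} [DecidableEq α]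

/-- The height contribution of a letter. -/
def ht (x : α) (a : α × Bool) : ℤ := if a.1 = x then (if a.2 then 1 else -1) else 0

/-- Total height. -/
def tot (x : α) (L : List (α × Bool)) : ℤ := (L.map (ht x)).sum

/-- Minimal height. -/
def minH (x : α) : List (α × Bool) → ℤ
  | [] => 0
  | a :: L => min 0 (ht x a + minH x L)

/-- Maximal height. -/
def maxH (x : α) : List (α × Bool) → ℤ
  | [] => 0
  | a :: L => max 0 (ht x a + maxH x L)

/-- Number of positive occurrences. -/
def up (x : α) (L : List (α × Bool)) : ℤ := (L.count (x, true) : ℤ)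
/-- Number of negative occurrences. -/
def dn (x : α) (L : List (α × Bool)) : ℤ := (L.count (x, false) : ℤ)

theorem up_cons (x : α) (a : α × Bool) (L : List (α × Bool)) :
    up x (a :: L) = up x L + if a = (x, true) then 1 else 0 := by
  unfold up
  rw [List.count_cons]
  push_cast
  congr 1
  by_cases h : a = (x, true) <;> simp [h]

theorem dn_cons (x : α) (a : α × Bool) (L : List (α × Bool)) :
    dn x (a :: L) = dn x L + if a = (x, false) then 1 else 0 := by
  unfold dn
  rw [List.count_cons]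
  push_cast
  congr 1
  by_cases h : a = (x, false) <;> simp [h]

theorem ht_eq (x : α) (a : α × Bool) :
    ht x a = (if a = (x, true) then 1 else 0) - (if a = (x, false) then 1 else 0) := by
  obtain ⟨y, b⟩ := a
  unfold ht
  by_cases h : y = x
  · subst h
    cases b <;> simp
  · simp [h]

theorem tot_eq (x : α) (L : List (α × Bool)) : tot x L = up x L - dn x L := by
  induction L with
  | nil => simp [tot, up, dn]
  | cons a L ih =>
    have : tot x (a :: L) = ht x a + tot x L := by simp [tot]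
    rw [this, ih, up_cons, dn_cons, ht_eq]
    ring

theorem minH_nonpos (x : α) (L : List (α × Bool)) : minH x L ≤ 0 := by
  cases L with
  | nil => exact le_rfl
  | cons a L => exact min_le_left _ _

theorem maxH_nonneg (x : α) (L : List (α × Bool)) : 0 ≤ maxH x L := by
  cases L with
  | nil => exact le_rfl
  | cons a L => exact le_max_left _ _

theorem height_bounds (x : α) (L : List (α × Bool)) :
    maxH x L ≤ up x L ∧ -minH x L ≤ dn x L ∧ maxH x L - minH x L ≤ max (up x L) (dn x L) := by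
  induction L with
  | nil => simp [minH, maxH, up, dn]
  | cons a L ih =>
    have h1 := minH_nonpos x L
    have h2 := maxH_nonneg x L
    rw [up_cons, dn_cons]
    simp only [minH, maxH]
    rw [ht_eq]
    by_cases ha : a = (x, true)
    · subst ha
      simp only [if_true, show ((x, true) : α × Bool) = (x, false) ↔ False by simp, if_false]
      omega
    · by_cases hb : a = (x, false)
      · subst hb
        simp only [if_true, show ((x, false) : α × Bool) = (x, true) ↔ False by simp, if_false]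
        omega
      · simp only [ha, hb, if_false]
        omega

end heights

section fox

variable {p : ℕ} [hp : Fact p.Prime]

theorem isUnit_one_add_X : IsUnit (1 + X : (ZMod p)⟦X⟧) := by
  rw [PowerSeries.isUnit_iff_constantCoeff]
  simp

/-- The unit `1 + X`. -/
noncomputable def t (p : ℕ) [Fact p.Prime] : ((ZMod p)⟦X⟧)ˣ := (isUnit_one_add_X (p := p)).unit

theorem t_val : ((t p : ((ZMod p)⟦X⟧)ˣ) : (ZMod p)⟦X⟧) = 1 + X := rfl

/-- The span of the powers `t ^ i` with `a ≤ i ≤ b`. -/
noncomputable def W (p : ℕ) [Fact p.Prime] (a b : ℤ) : Submodule (ZMod p) (ZMod p)⟦X⟧ :=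
  Submodule.span (ZMod p) {f | ∃ i : ℤ, a ≤ i ∧ i ≤ b ∧ f = ((t p ^ i : ((ZMod p)⟦X⟧)ˣ) : (ZMod p)⟦X⟧)}

theorem W_mono {a b a' b' : ℤ} (h1 : a' ≤ a) (h2 : b ≤ b') : W p a b ≤ W p a' b' := by
  apply Submodule.span_mono
  rintro f ⟨i, hi1, hi2, rfl⟩
  exact ⟨i, h1.trans hi1, hi2.trans h2, rfl⟩

theorem mem_W {a b i : ℤ} (h1 : a ≤ i) (h2 : i ≤ b) :
    ((t p ^ i : ((ZMod p)⟦X⟧)ˣ) : (ZMod p)⟦X⟧) ∈ W p a b :=
  Submodule.subset_span ⟨i, h1, h2, rfl⟩

theorem mul_mem_W {a b n : ℤ} {f : (ZMod p)⟦X⟧} (hf : f ∈ W p a b) :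
    ((t p ^ n : ((ZMod p)⟦X⟧)ˣ) : (ZMod p)⟦X⟧) * f ∈ W p (n + a) (n + b) := by
  unfold W at hf
  induction hf using Submodule.span_induction with
  | mem f hf =>
    obtain ⟨i, h1, h2, rfl⟩ := hf
    rw [← Units.val_mul, ← zpow_add]
    exact mem_W (by omega) (by omega)
  | zero => rw [mul_zero]; exact Submodule.zero_mem _
  | add f g _ _ hf hg => rw [mul_add]; exact Submodule.add_mem _ hf hg
  | smul c f _ hf => rw [mul_smul_comm]; exact Submodule.smul_mem _ _ hf

theorem W_eq_zero {a b : ℤ} {N : ℕ} (hN : b - a ≤ N) {f : (ZMod p)⟦X⟧} (hf : f ∈ W p a b)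
    (hd : (X : (ZMod p)⟦X⟧) ^ (N + 1) ∣ f) : f = 0 := by
  have h1 := mul_mem_W (n := -a) hf
  have key : ∀ g ∈ W p (-a + a) (-a + b), ∀ j, N < j → coeff j g = 0 := by
    intro g hg
    unfold W at hg
    induction hg using Submodule.span_induction with
    | mem f hf =>
      obtain ⟨i, h1, h2, rfl⟩ := hf
      intro j hj
      obtain ⟨n, rfl⟩ : ∃ n : ℕ, i = n := ⟨i.toNat, by omega⟩
      have e : (((t p) ^ (n : ℤ) : ((ZMod p)⟦X⟧)ˣ) : (ZMod p)⟦X⟧) =
          ((((1 : Polynomial (ZMod p)) + Polynomial.X) ^ n : Polynomial (ZMod p)) : (ZMod p)⟦X⟧) := by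
        rw [zpow_natCast, Units.val_pow_eq_pow_val, t_val]
        simp
      rw [e, Polynomial.coeff_coe]
      apply Polynomial.coeff_eq_zero_of_natDegree_lt
      refine lt_of_le_of_lt (Polynomial.natDegree_pow_le) ?_
      have : ((1 : Polynomial (ZMod p)) + Polynomial.X).natDegree ≤ 1 := by
        rw [add_comm]
        exact (Polynomial.natDegree_X_add_C (1 : ZMod p)).le
      have h3 : n * ((1 : Polynomial (ZMod p)) + Polynomial.X).natDegree ≤ n * 1 :=
        Nat.mul_le_mul_left _ this
      omega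
    | zero => intro j _; simp
    | add f g _ _ hf hg => intro j hj; rw [map_add, hf j hj, hg j hj, add_zero]
    | smul c f _ hf => intro j hj; rw [map_smul, hf j hj, smul_zero]
  have h2 := key _ h1
  have hd' : (X : (ZMod p)⟦X⟧) ^ (N + 1) ∣
      ((t p ^ (-a) : ((ZMod p)⟦X⟧)ˣ) : (ZMod p)⟦X⟧) * f := Dvd.dvd.mul_left hd _
  rw [X_pow_dvd_iff] at hd'
  have h3 : ((t p ^ (-a) : ((ZMod p)⟦X⟧)ˣ) : (ZMod p)⟦X⟧) * f = 0 := by
    ext j
    rw [map_zero]
    by_cases hj : N < j
    · exact h2 j hj
    · exact hd' j (by omega)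
  exact (Units.mul_right_eq_zero _).1 h3

variable {α : Type*} [DecidableEq α]

/-- The homomorphism attached to a letter `x` and constants `e`. -/
noncomputable def Hom (p : ℕ) [Fact p.Prime] (x : α) (e : α → ZMod p) :
    FreeGroup α →* Aff (ZMod p)⟦X⟧ :=
  FreeGroup.lift (fun a => (⟨t p ^ (if a = x then (1 : ℤ) else 0), C (e a)⟩ : Aff (ZMod p)⟦X⟧))

theorem Hom_letter (x : α) (e : α → ZMod p) (a : α × Bool) :
    (Hom p x e (FreeGroup.mk [a])).u = t p ^ (ht x a) ∧
    (Hom p x e (FreeGroup.mk [a])).d ∈ W p (min 0 (ht x a)) (max 0 (ht x a)) := by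
  obtain ⟨y, b⟩ := a
  cases b with
  | true =>
    constructor
    · simp [Hom, ht]
    · have h1 : (Hom p x e (FreeGroup.mk [(y, true)])).d =
          e y • ((t p ^ (0 : ℤ) : ((ZMod p)⟦X⟧)ˣ) : (ZMod p)⟦X⟧) := by
        simp [Hom, PowerSeries.smul_eq_C_mul]
      rw [h1]
      exact Submodule.smul_mem _ _ (mem_W (min_le_left _ _) (le_max_left _ _))
  | false =>
    constructor
    · by_cases h : y = x <;> simp [Hom, ht, h]
    · have h1 : (Hom p x e (FreeGroup.mk [(y, false)])).d =
          (-e y) • ((t p ^ (ht x (y, false)) : ((ZMod p)⟦X⟧)ˣ) : (ZMod p)⟦X⟧) := by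
        by_cases h : y = x <;> simp [Hom, PowerSeries.smul_eq_C_mul, ht, h, mul_comm]
      rw [h1]
      exact Submodule.smul_mem _ _ (mem_W (min_le_right _ _) (le_max_right _ _))

theorem Hom_word (x : α) (e : α → ZMod p) (L : List (α × Bool)) :
    (Hom p x e (FreeGroup.mk L)).u = t p ^ (tot x L) ∧
    (Hom p x e (FreeGroup.mk L)).d ∈ W p (minH x L) (maxH x L) := by
  induction L with
  | nil =>
    rw [← FreeGroup.one_eq_mk, map_one]
    exact ⟨by simp [tot], by simp⟩
  | cons a L ih =>
    obtain ⟨h1, h2⟩ := Hom_letter (p := p) x e a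
    have e1 : FreeGroup.mk (a :: L) = FreeGroup.mk [a] * FreeGroup.mk L := by
      rw [FreeGroup.mul_mk]
      rfl
    rw [e1, map_mul]
    constructor
    · rw [Aff.mul_u, h1, ih.1, ← zpow_add]
      simp [tot]
    · rw [Aff.mul_d, h1]
      have h3 := minH_nonpos x L
      have h4 := maxH_nonneg x L
      refine Submodule.add_mem _ (W_mono ?_ ?_ h2) (W_mono ?_ ?_ (mul_mem_W ih.2))
      · simp only [minH]; omega
      · simp only [maxH]; omega
      · simp only [minH]; omega
      · simp only [maxH]; omega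

theorem X_dvd_zpow_sub_one (n : ℤ) :
    (X : (ZMod p)⟦X⟧) ∣ ((t p ^ n : ((ZMod p)⟦X⟧)ˣ) : (ZMod p)⟦X⟧) - 1 := by
  rw [X_dvd_iff, map_sub, map_one, sub_eq_zero]
  have h1 : Units.map (constantCoeff (R := ZMod p)).toMonoidHom (t p) = 1 := by
    ext1
    change constantCoeff (1 + X : (ZMod p)⟦X⟧) = 1
    simp
  have h2 : Units.map (constantCoeff (R := ZMod p)).toMonoidHom (t p ^ n) = 1 := by
    rw [map_zpow, h1, one_zpow]
  exact congrArg Units.val h2

instance instCharPPS : CharP (ZMod p)⟦X⟧ p :=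
  charP_of_injective_ringHom (f := (C : ZMod p →+* (ZMod p)⟦X⟧)) PowerSeries.C_injective p

theorem geom_eq (s : (ZMod p)⟦X⟧) :
    (∑ i ∈ Finset.range p, s ^ i) * (s - 1) = (s - 1) ^ p := by
  rw [geom_sum_mul, sub_pow_char, one_pow]

theorem X_pow_dvd_geom {s : (ZMod p)⟦X⟧} (h : X ∣ s - 1) :
    (X : (ZMod p)⟦X⟧) ^ (p - 1) ∣ ∑ i ∈ Finset.range p, s ^ i := by
  by_cases hs : s = 1
  · subst hs
    simp [CharP.cast_eq_zero]
  · have h1 := geom_eq s
    have hp1 : p = (p - 1) + 1 := by
      have := hp.out.one_lt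
      omega
    have h2 : (∑ i ∈ Finset.range p, s ^ i) = (s - 1) ^ (p - 1) := by
      apply mul_right_cancel₀ (sub_ne_zero.2 hs)
      rw [h1, ← pow_succ, ← hp1]
    rw [h2]
    exact pow_dvd_pow_of_dvd h _

theorem geom_ne_zero {s : (ZMod p)⟦X⟧} (h : s ≠ 1) : (∑ i ∈ Finset.range p, s ^ i) ≠ 0 := by
  intro h0
  have h1 := geom_eq s
  rw [h0, zero_mul] at h1
  exact sub_ne_zero.2 h (pow_eq_zero_iff (hp.out.ne_zero) |>.1 h1.symm)

end fox

section main

variable {k : ℕ}

/-- The word `x_1 ^ p ⋯ x_k ^ p`. -/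
def ww (k p : ℕ) : FreeGroup (Fin k) :=
  ((List.finRange k).map (fun i => FreeGroup.of i ^ p)).prod

variable {p : ℕ} [hp : Fact p.Prime]

theorem dvd_list (l : List (Fin k)) (H : FreeGroup (Fin k) →* Aff (ZMod p)⟦X⟧)
    (hH : ∀ i, (X : (ZMod p)⟦X⟧) ∣ ((H (FreeGroup.of i)).u : (ZMod p)⟦X⟧) - 1) :
    (X : (ZMod p)⟦X⟧) ^ (p - 1) ∣ (H ((l.map (fun i => FreeGroup.of i ^ p)).prod)).d := by
  induction l with
  | nil => simp
  | cons i l ih =>
    rw [List.map_cons, List.prod_cons, map_mul, Aff.mul_d]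
    apply dvd_add
    · rw [map_pow, Aff.pow_d]
      exact Dvd.dvd.mul_right (X_pow_dvd_geom (hH i)) _
    · exact Dvd.dvd.mul_left ih _

theorem zero_list (l : List (Fin k)) (H : FreeGroup (Fin k) →* Aff (ZMod p)⟦X⟧)
    (hH : ∀ j ∈ l, (H (FreeGroup.of j)).d = 0) :
    (H ((l.map (fun i => FreeGroup.of i ^ p)).prod)).d = 0 := by
  induction l with
  | nil => simp
  | cons i l ih =>
    rw [List.map_cons, List.prod_cons, map_mul, Aff.mul_d, map_pow, Aff.pow_d,
      hH i (by simp), ih (fun j hj => hH j (by simp [hj]))]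
    simp

theorem ne_zero_list (l : List (Fin k)) (hl : l.Nodup) (i : Fin k) (hi : i ∈ l)
    (H : FreeGroup (Fin k) →* Aff (ZMod p)⟦X⟧)
    (hH : ∀ j, j ≠ i → (H (FreeGroup.of j)).d = 0)
    (hHi : (H (FreeGroup.of i)).d = 1)
    (hs : ((H (FreeGroup.of i)).u : (ZMod p)⟦X⟧) ≠ 1) :
    (H ((l.map (fun i => FreeGroup.of i ^ p)).prod)).d ≠ 0 := by
  induction l with
  | nil => simp at hi
  | cons a l ih =>
    rw [List.map_cons, List.prod_cons, map_mul, Aff.mul_d, map_pow, Aff.pow_d]
    rw [List.nodup_cons] at hl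
    by_cases ha : a = i
    · subst ha
      rw [zero_list l H (fun j hj => hH j (fun h => hl.1 (h ▸ hj))), hHi, mul_zero, add_zero,
        mul_one]
      exact geom_ne_zero hs
    · rw [hH a ha, mul_zero, zero_add]
      have hi' : i ∈ l := by
        rcases List.mem_cons.1 hi with h | h
        · exact absurd h.symm ha
        · exact h
      intro h0
      exact ih hl.2 hi' ((Units.mul_right_eq_zero _).1 h0)

theorem dvd_tot_list (l : List (Fin k)) (ψ : FreeGroup (Fin k) →* Multiplicative ℤ) (p : ℕ) :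
    (p : ℤ) ∣ (ψ ((l.map (fun i => FreeGroup.of i ^ p)).prod)).toAdd := by
  induction l with
  | nil => simp
  | cons i l ih =>
    rw [List.map_cons, List.prod_cons, map_mul, toAdd_mul, map_pow, toAdd_pow]
    exact dvd_add (by simp) ih

/-- The total exponent as a homomorphism. -/
def totHom (x : Fin k) : FreeGroup (Fin k) →* Multiplicative ℤ :=
  FreeGroup.lift (fun a => Multiplicative.ofAdd (ht x (a, true)))

theorem totHom_mk (x : Fin k) (L : List (Fin k × Bool)) :
    (totHom x (FreeGroup.mk L)).toAdd = tot x L := by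
  rw [totHom, FreeGroup.lift_mk]
  induction L with
  | nil => simp [tot]
  | cons a L ih =>
    rw [List.map_cons, List.prod_cons, toAdd_mul, ih]
    obtain ⟨y, b⟩ := a
    cases b with
    | true => simp [tot]
    | false => by_cases h : y = x <;> simp [tot, ht, h]

/-- Every element of the automorphic orbit contains every letter at least `p` times. -/
theorem occ_ge (hp2 : p ≠ 2) (x : Fin k) (φ : FreeGroup (Fin k) ≃* FreeGroup (Fin k)) :
    p ≤ (φ (ww k p)).toWord.countP (fun a => a.1 = x) := by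
  by_contra hlt
  push Not at hlt
  set L := (φ (ww k p)).toWord with hL
  have hmk : FreeGroup.mk L = φ (ww k p) := FreeGroup.mk_toWord
  have hp3 : 3 ≤ p := by
    have := hp.out.two_le
    omega
  -- counts
  have hcount : (L.countP (fun a => a.1 = x) : ℤ) = up x L + dn x L := by
    clear hlt hmk hL
    clear_value L
    induction L with
    | nil => simp [up, dn]
    | cons a L ih =>
      rw [up_cons, dn_cons, List.countP_cons]
      push_cast
      rw [ih]
      obtain ⟨y, b⟩ := a
      by_cases h : y = x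
      · cases b <;> simp [h] <;> ring
      · simp [h]
  have hup : 0 ≤ up x L := by unfold up; positivity
  have hdn : 0 ≤ dn x L := by unfold dn; positivity
  -- total exponent zero
  have htot : tot x L = 0 := by
    have h1 : (p : ℤ) ∣ tot x L := by
      rw [← totHom_mk, hmk]
      exact dvd_tot_list (List.finRange k) ((totHom x).comp φ.toMonoidHom) p
    rw [tot_eq] at h1 ⊢
    have h2 : |up x L - dn x L| < p := by
      rw [abs_lt]
      constructor <;> omega
    exact Int.eq_zero_of_abs_lt_dvd h1 h2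
  have hbound := height_bounds x L
  rw [tot_eq] at htot
  have hspan : maxH x L - minH x L ≤ ((p - 2 : ℕ) : ℤ) := by
    omega
  -- all Fox derivatives vanish
  have hvan : ∀ e : Fin k → ZMod p, (Hom p x e (φ (ww k p))).d = 0 := by
    intro e
    have h1 := (Hom_word (p := p) x e L).2
    rw [hmk] at h1
    refine W_eq_zero (N := p - 2) hspan h1 ?_
    have h2 : p - 2 + 1 = p - 1 := by omega
    rw [h2]
    refine dvd_list (List.finRange k) ((Hom p x e).comp φ.toMonoidHom) (fun i => ?_)
    have h3 := (Hom_word (p := p) x e (φ (FreeGroup.of i)).toWord).1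
    rw [FreeGroup.mk_toWord] at h3
    change (X : (ZMod p)⟦X⟧) ∣ ((Hom p x e (φ (FreeGroup.of i))).u : (ZMod p)⟦X⟧) - 1
    rw [h3]
    exact X_dvd_zpow_sub_one _
  -- the linear part does not depend on the constants
  have hu : ∀ (e : Fin k → ZMod p) (g : FreeGroup (Fin k)),
      (Hom p x e g).u = (Hom p x 0 g).u := by
    intro e g
    have h1 := (Hom_word (p := p) x e g.toWord).1
    have h2 := (Hom_word (p := p) x 0 g.toWord).1
    rw [FreeGroup.mk_toWord] at h1 h2
    rw [h1, h2]
  -- a homomorphism with arbitrary coefficients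
  let G : (Fin k → (ZMod p)⟦X⟧) → FreeGroup (Fin k) →* Aff (ZMod p)⟦X⟧ := fun c =>
    { toFun := fun g => ⟨(Hom p x 0 g).u, ∑ a, c a * (Hom p x (Pi.single a 1) g).d⟩
      map_one' := by ext <;> simp
      map_mul' := by
        intro g h
        ext1
        · simp
        · simp only [map_mul, Aff.mul_d, hu, mul_add, Finset.sum_add_distrib, Finset.mul_sum]
          congr 1
          apply Finset.sum_congr rfl
          intro a _
          ring }
  have hGvan : ∀ c, (G c (φ (ww k p))).d = 0 := by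
    intro c
    change ∑ a, c a * (Hom p x (Pi.single a 1) (φ (ww k p))).d = 0
    simp [hvan]
  have hGof : ∀ c a, (G c (FreeGroup.of a)).d = c a := by
    intro c a
    change ∑ b, c b * (Hom p x (Pi.single b 1) (FreeGroup.of a)).d = c a
    rw [Finset.sum_eq_single a]
    · simp [Hom]
    · intro b _ hb
      simp [Hom, Pi.single_eq_of_ne hb.symm]
    · intro h
      exact absurd (Finset.mem_univ a) h
  -- some generator has nontrivial image
  obtain ⟨i, hi⟩ : ∃ i : Fin k, (Hom p x 0 (φ (FreeGroup.of i))).u ≠ 1 := by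
    by_contra hcon
    push Not at hcon
    have h1 : (Aff.uHom.comp (Hom p x 0)).comp φ.toMonoidHom = 1 := by
      ext1 i
      exact hcon i
    have h2 : (Hom p x 0 (FreeGroup.of x)).u = 1 := by
      have := DFunLike.congr_fun h1 (φ.symm (FreeGroup.of x))
      simpa [Aff.uHom] using this
    have h3 : (t p : ((ZMod p)⟦X⟧)ˣ) = 1 := by
      simpa [Hom] using h2
    have h4 := congrArg (Units.val) h3
    rw [t_val, Units.val_one, add_eq_left] at h4
    exact X_ne_zero h4
  -- the contradiction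
  let H' : FreeGroup (Fin k) →* Aff (ZMod p)⟦X⟧ :=
    FreeGroup.lift (fun j => ⟨(Hom p x 0 (φ (FreeGroup.of j))).u, if j = i then 1 else 0⟩)
  have hH'G : ∃ c, H'.comp φ.symm.toMonoidHom = G c := by
    refine ⟨fun a => (H' (φ.symm (FreeGroup.of a))).d, ?_⟩
    ext1 a
    ext1
    · change (H' (φ.symm (FreeGroup.of a))).u = (Hom p x 0 (FreeGroup.of a)).u
      have h1 : (Aff.uHom.comp H') = (Aff.uHom.comp (Hom p x 0)).comp φ.toMonoidHom := by
        ext1 j
        simp [H', Aff.uHom]
      have h2 := DFunLike.congr_fun h1 (φ.symm (FreeGroup.of a))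
      simpa [Aff.uHom] using h2
    · rw [hGof]
      rfl
  obtain ⟨c, hc⟩ := hH'G
  have h1 : (H' (ww k p)).d = 0 := by
    have h2 := DFunLike.congr_fun hc (φ (ww k p))
    have h3 : H' (ww k p) = G c (φ (ww k p)) := by
      rw [← h2]
      simp
    rw [h3]
    exact hGvan c
  refine ne_zero_list (List.finRange k) (List.nodup_finRange k) i (List.mem_finRange i) H'
    (fun j hj => by simp [H', hj]) (by simp [H']) ?_ h1
  intro h2
  apply hi
  ext1
  rw [Units.val_one, ← h2]
  simp [H']

end main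

end Pool.Agent.Growth56
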