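import Mathlib
import Pool.Agent.helper56.GrowthA
import Pool.Agent.helper56.GrowthB

/-!
Many cyclic words in the orbit of `x_1 ^ p ⋯ x_k ^ p`.
-/

set_option autoImplicit false

namespace Pool.Agent.Growth56

open FreeGroup List

section rot

theorem rot_unique {β : Type*} {z : β} {p : ℕ} (hp : 0 < p) {B B' : List β} (hB : z ∉ B)
    (hB' : z ∉ B') (hB'0 : B' ≠ []) (h : (replicate p z ++ B) ~r (replicate p z ++ B')) :
    B = B' := by
  obtain ⟨n, hn, h⟩ := List.isRotated_iff_mod.1 h
  rcases Nat.eq_zero_or_pos n with rfl | hn0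
  · rw [List.rotate_zero] at h
    exact List.append_cancel_left h
  rcases hn.lt_or_eq with hlt | heq
  swap
  · rw [heq, List.rotate_length] at h
    exact List.append_cancel_left h
  · exfalso
    rw [List.rotate_eq_drop_append_take hn] at h
    by_cases hnp : n ≤ p
    · -- the last letter would be `z`
      have h1 : take n (replicate p z ++ B) = replicate n z := by
        rw [List.take_append_of_le_length (by simpa using hnp), List.take_replicate,
          Nat.min_eq_left hnp]
      rw [h1] at h
      have h2 := congrArg List.getLast? h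
      rw [getLast?_append_ne _ (by simp; omega), getLast?_append_ne _ hB'0] at h2
      have h3 : (replicate n z).getLast? = some z := by
        rw [List.getLast?_replicate, if_neg (by omega)]
      rw [h3] at h2
      exact hB' (List.mem_of_getLast? h2.symm)
    · push Not at hnp
      have h1 : drop n (replicate p z ++ B) = drop (n - p) B := by
        rw [List.drop_append, List.drop_eq_nil_of_le (by simp; omega)]
        simp
      have h2 : drop (n - p) B ≠ [] := by
        simp at hlt
        simp
        omega
      rw [h1] at h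
      have h3 := congrArg List.head? h
      rw [head?_append_ne _ h2, head?_append_ne _ (by simp; omega)] at h3
      have h4 : (replicate p z).head? = some z := by
        rw [List.head?_replicate, if_neg (by omega)]
      rw [h4] at h3
      exact hB (List.mem_of_mem_drop (List.mem_of_head? h3))

end rot

section words

variable {m : ℕ}

/-- Successor letters. -/
theorem exists_next (a : Fin (m + 3) × Bool) : ∃ f : Fin (2 * m + 3) → Fin (m + 3) × Bool,
    Function.Injective f ∧ ∀ i, (f i).1 ≠ 0 ∧ f i ≠ (a.1, !a.2) := by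
  classical
  let T : Finset (Fin (m + 3) × Bool) :=
    (((Finset.univ.erase (0 : Fin (m + 3))) ×ˢ (Finset.univ : Finset Bool))).erase (a.1, !a.2)
  have hT : 2 * m + 3 ≤ T.card := by
    have h1 := Finset.pred_card_le_card_erase
      (s := (Finset.univ.erase (0 : Fin (m + 3))) ×ˢ (Finset.univ : Finset Bool))
      (a := (a.1, !a.2))
    have h2 : ((Finset.univ.erase (0 : Fin (m + 3))) ×ˢ (Finset.univ : Finset Bool)).card =
        (m + 2) * 2 := by
      rw [Finset.card_product, Finset.card_erase_of_mem (Finset.mem_univ _)]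
      simp
    rw [h2] at h1
    change 2 * m + 3 ≤ (Finset.erase _ _).card
    omega
  obtain ⟨e⟩ : Nonempty (Fin (2 * m + 3) ↪ T) := by
    apply Function.Embedding.nonempty_of_card_le
    simpa using hT
  refine ⟨fun i => (e i : Fin (m + 3) × Bool), fun i j h => e.injective (Subtype.ext h), ?_⟩
  intro i
  have := (e i).2
  simp only [T, Finset.mem_erase, Finset.mem_product, Finset.mem_univ, and_true] at this
  exact ⟨this.2, this.1⟩

/-- Successor letters. -/
noncomputable def nxt (a : Fin (m + 3) × Bool) : Fin (2 * m + 3) → Fin (m + 3) × Bool :=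
  (exists_next a).choose

theorem nxt_inj (a : Fin (m + 3) × Bool) : Function.Injective (nxt a) :=
  (exists_next a).choose_spec.1

theorem nxt_spec (a : Fin (m + 3) × Bool) (i : Fin (2 * m + 3)) :
    (nxt a i).1 ≠ 0 ∧ nxt a i ≠ (a.1, !a.2) := (exists_next a).choose_spec.2 i

/-- Reduced words with prescribed first letter, not using the letter `0`. -/
noncomputable def build : (Fin (m + 3) × Bool) → List (Fin (2 * m + 3)) → List (Fin (m + 3) × Bool)
  | a, [] => [a]
  | a, i :: l => a :: build (nxt a i) l

theorem build_head (a : Fin (m + 3) × Bool) (l : List (Fin (2 * m + 3))) :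
    (build a l).head? = some a := by
  cases l <;> rfl

theorem build_ne (a : Fin (m + 3) × Bool) (l : List (Fin (2 * m + 3))) : build a l ≠ [] := by
  cases l <;> simp [build]

theorem build_length (l : List (Fin (2 * m + 3))) :
    ∀ a : Fin (m + 3) × Bool, (build a l).length = l.length + 1 := by
  induction l with
  | nil => intro a; rfl
  | cons i l ih => intro a; simp [build, ih]

theorem build_inj (l : List (Fin (2 * m + 3))) : ∀ (l' : List (Fin (2 * m + 3)))
    (a : Fin (m + 3) × Bool), build a l = build a l' → l = l' := by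
  induction l with
  | nil =>
    intro l' a h
    have := congrArg List.length h
    rw [build_length, build_length] at this
    simp at this
    exact this.symm
  | cons i l ih =>
    intro l' a h
    cases l' with
    | nil =>
      have := congrArg List.length h
      rw [build_length, build_length] at this
      simp at this
    | cons j l' =>
      simp only [build, List.cons.injEq, true_and] at h
      have h1 := congrArg List.head? h
      rw [build_head, build_head, Option.some.injEq] at h1
      have h2 := nxt_inj a h1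
      subst h2
      rw [ih l' _ h]

theorem build_reduced (l : List (Fin (2 * m + 3))) :
    ∀ a : Fin (m + 3) × Bool, FreeGroup.IsReduced (build a l) := by
  induction l with
  | nil => intro a; simp [build, FreeGroup.IsReduced]
  | cons i l ih =>
    intro a
    rw [build, FreeGroup.IsReduced, List.isChain_cons]
    refine ⟨?_, ih _⟩
    intro y hy
    rw [build_head] at hy
    simp only [Option.mem_def, Option.some.injEq] at hy
    subst hy
    intro h1
    by_contra h2
    apply (nxt_spec a i).2
    ext
    · rw [← h1]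
    · simp only
      cases h3 : a.2 <;> cases h4 : (nxt a i).2 <;> simp_all

theorem build_ne_zero (l : List (Fin (2 * m + 3))) :
    ∀ a : Fin (m + 3) × Bool, a.1 ≠ 0 → ∀ b ∈ build a l, b.1 ≠ 0 := by
  induction l with
  | nil =>
    intro a ha b hb
    simp only [build, List.mem_singleton] at hb
    rw [hb]
    exact ha
  | cons i l ih =>
    intro a ha b hb
    simp only [build, List.mem_cons] at hb
    rcases hb with rfl | hb
    · exact ha
    · exact ih _ (nxt_spec a i).1 b hb

/-- The positive word of a list of letters, each repeated `p` times. -/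
def pw (p : ℕ) (l : List (Fin (m + 3))) : List (Fin (m + 3) × Bool) :=
  l.flatMap (fun i => replicate p (i, true))

theorem mk_pw (p : ℕ) (l : List (Fin (m + 3))) :
    mk (pw p l) = (l.map (fun i => FreeGroup.of i ^ p)).prod := by
  induction l with
  | nil => rfl
  | cons i l ih =>
    have h1 : pw p (i :: l) = replicate p (i, true) ++ pw p l := by simp [pw]
    have h2 : mk (replicate p (i, true)) = FreeGroup.of i ^ p := by
      rw [← toWord_of_pow, mk_toWord]
    rw [h1, ← mul_mk, h2, ih, List.map_cons, List.prod_cons]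

theorem pw_true (p : ℕ) (l : List (Fin (m + 3))) : ∀ a ∈ pw p l, a.2 = true := by
  intro a ha
  simp only [pw, List.mem_flatMap, List.mem_replicate] at ha
  obtain ⟨i, _, _, rfl⟩ := ha
  rfl

theorem pw_mem (p : ℕ) (l : List (Fin (m + 3))) : ∀ a ∈ pw p l, a.1 ∈ l := by
  intro a ha
  simp only [pw, List.mem_flatMap, List.mem_replicate] at ha
  obtain ⟨i, h, _, rfl⟩ := ha
  exact h

theorem reduced_of_true {l : List (Fin (m + 3) × Bool)} (h : ∀ a ∈ l, a.2 = true) :
    FreeGroup.IsReduced l := by
  induction l with
  | nil => simp [FreeGroup.IsReduced]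
  | cons a l ih =>
    rw [FreeGroup.IsReduced, List.isChain_cons]
    refine ⟨?_, ih (fun b hb => h b (by simp [hb]))⟩
    intro y hy _
    rw [h a (by simp), h y (by simp [List.mem_of_mem_head? hy])]

/-- The list of nonzero letters. -/
def nz (m : ℕ) : List (Fin (m + 3)) := (List.finRange (m + 2)).map Fin.succ

theorem finRange_eq (m : ℕ) : List.finRange (m + 3) = 0 :: nz m := List.finRange_succ

theorem nz_ne_zero : ∀ i ∈ nz m, i ≠ 0 := by
  intro i hi
  simp only [nz, List.mem_map] at hi
  obtain ⟨j, _, rfl⟩ := hi
  exact Fin.succ_ne_zero j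

theorem nz_eq_head : nz m = 1 :: (nz m).tail := by
  simp [nz, List.finRange_succ]

theorem nz_eq_last : nz m = (nz m).dropLast ++ [Fin.last (m + 2)] := by
  simp [nz, List.finRange_succ_last]

/-- The word `x_1 ^ p ⋯ x_{k-1} ^ p` without the first letter. -/
def V (m p : ℕ) : List (Fin (m + 3) × Bool) := pw p (nz m)

theorem V_head {p : ℕ} (hp : 0 < p) : (V m p).head? = some (1, true) := by
  rw [V, nz_eq_head]
  have h1 : pw p (1 :: (nz m).tail) = replicate p ((1 : Fin (m + 3)), true) ++ pw p (nz m).tail := by
    simp [pw]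
  rw [h1, head?_append_ne _ (by simp; omega), List.head?_replicate, if_neg (by omega)]

theorem V_last {p : ℕ} (hp : 0 < p) : (V m p).getLast? = some (Fin.last (m + 2), true) := by
  rw [V, nz_eq_last]
  have h1 : pw p ((nz m).dropLast ++ [Fin.last (m + 2)]) =
      pw p (nz m).dropLast ++ replicate p (Fin.last (m + 2), true) := by
    simp [pw]
  rw [h1, getLast?_append_ne _ (by simp; omega), List.getLast?_replicate, if_neg (by omega)]

theorem V_ne {p : ℕ} (hp : 0 < p) : V m p ≠ [] := by
  intro h
  have := V_head (m := m) hp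
  rw [h] at this
  simp at this

theorem V_length (p : ℕ) : (V m p).length = (m + 2) * p := by
  have h1 : ∀ l : List (Fin (m + 3)), (pw p l).length = l.length * p := by
    intro l
    induction l with
    | nil => simp [pw]
    | cons i l ih =>
      have h2 : pw p (i :: l) = replicate p (i, true) ++ pw p l := by simp [pw]
      rw [h2, List.length_append, ih, List.length_replicate, List.length_cons]
      ring
  rw [V, h1]
  simp [nz]

/-- The cyclically reduced word attached to `r`. -/
def Lw (p : ℕ) (r : List (Fin (m + 3) × Bool)) : List (Fin (m + 3) × Bool) :=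
  replicate p (0, true) ++ (invRev r ++ V m p ++ r)

theorem Lw_length (p : ℕ) (r : List (Fin (m + 3) × Bool)) :
    (Lw p r).length = 2 * r.length + (m + 3) * p := by
  simp only [Lw, List.length_append, List.length_replicate, invRev_length, V_length]
  ring

theorem Lw_cyc {p : ℕ} (hp : 0 < p) {r : List (Fin (m + 3) × Bool)} (hr : FreeGroup.IsReduced r)
    (hr0 : ∀ a ∈ r, a.1 ≠ 0) (hhead : r.head? = some (Fin.last (m + 2), true)) :
    IsCyclicallyReduced (Lw p r) := by
  have hrne : r ≠ [] := by
    rintro rfl
    simp at hhead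
  have hinvne : invRev r ≠ [] := by
    intro h
    have := congrArg List.length h
    rw [invRev_length] at this
    simp at this
    exact hrne this
  have hinv0 : ∀ a ∈ invRev r, a.1 ≠ 0 := by
    intro a ha
    simp only [invRev, List.mem_reverse, List.mem_map] at ha
    obtain ⟨b, hb, rfl⟩ := ha
    exact hr0 b hb
  have hinvred : FreeGroup.IsReduced (invRev r) := by
    rw [isReduced_iff_reduce_eq, reduce_invRev, hr.reduce_eq]
  have hinvlast : (invRev r).getLast? = some (Fin.last (m + 2), false) := by
    cases r with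
    | nil => simp at hhead
    | cons f G =>
      simp only [List.head?_cons, Option.some.injEq] at hhead
      subst hhead
      simp [invRev]
  rw [Lw, cyc_append_iff (by simp; omega) (by simp [hrne])]
  refine ⟨?_, ?_, ?_, ?_⟩
  · apply reduced_of_true
    intro a ha
    rw [List.mem_replicate] at ha
    rw [ha.2]
  · unfold FreeGroup.IsReduced
    rw [List.isChain_append, List.isChain_append]
    refine ⟨⟨hinvred, reduced_of_true (pw_true _ _), ?_⟩, hr, ?_⟩
    · intro x hx y hy
      rw [hinvlast] at hx
      rw [V_head hp] at hy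
      simp only [Option.mem_def, Option.some.injEq] at hx hy
      subst hx hy
      intro h
      exfalso
      have := congrArg Fin.val h
      simp at this
    · intro x hx y hy
      rw [getLast?_append_ne _ (V_ne hp), V_last hp] at hx
      rw [hhead] at hy
      simp only [Option.mem_def, Option.some.injEq] at hx hy
      subst hx hy
      intro _
      rfl
  · intro x hx y hy
    rw [List.getLast?_replicate, if_neg (by omega)] at hx
    rw [List.append_assoc, head?_append_ne _ hinvne] at hy
    simp only [Option.mem_def, Option.some.injEq] at hx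
    subst hx
    intro h
    exact absurd h.symm (hinv0 y (List.mem_of_mem_head? hy))
  · intro x hx y hy
    rw [getLast?_append_ne _ hrne] at hx
    rw [List.head?_replicate, if_neg (by omega)] at hy
    simp only [Option.mem_def, Option.some.injEq] at hy
    subst hy
    intro h
    exact absurd h (hr0 x (List.mem_of_getLast? hx))

theorem Lw_inj {p : ℕ} (hp : 0 < p) {r r' : List (Fin (m + 3) × Bool)}
    (hr : FreeGroup.IsReduced r) (hr0 : ∀ a ∈ r, a.1 ≠ 0)
    (hhead : r.head? = some (Fin.last (m + 2), true))
    (hr' : FreeGroup.IsReduced r') (hr0' : ∀ a ∈ r', a.1 ≠ 0)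
    (hhead' : r'.head? = some (Fin.last (m + 2), true)) (hlen : r.length = r'.length)
    (h : ConjClasses.mk (mk (Lw p r)) = ConjClasses.mk (mk (Lw p r'))) : r = r' := by
  rw [ConjClasses.mk_eq_mk_iff_isConj, isConj_iff] at h
  obtain ⟨c, hc⟩ := h
  have hrot : Lw p r ~r Lw p r' := by
    apply isRotated_of_conj c.toWord _ _ isReduced_toWord (Lw_cyc hp hr hr0 hhead)
      (Lw_cyc hp hr' hr0' hhead')
    rw [mk_toWord, hc]
  have hz : ∀ {r : List (Fin (m + 3) × Bool)}, (∀ a ∈ r, a.1 ≠ 0) →
      ((0 : Fin (m + 3)), true) ∉ invRev r ++ V m p ++ r := by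
    intro r hr0 hmem
    simp only [List.mem_append] at hmem
    rcases hmem with (hmem | hmem) | hmem
    · simp only [invRev, List.mem_reverse, List.mem_map] at hmem
      obtain ⟨b, hb, hb2⟩ := hmem
      exact hr0 b hb (congrArg Prod.fst hb2)
    · exact nz_ne_zero _ (pw_mem _ _ _ hmem) rfl
    · exact hr0 _ hmem rfl
  have h1 := rot_unique hp (hz hr0) (hz hr0') (by simp [V_ne hp]) hrot
  have h2 := List.append_inj h1 (by simp [hlen])
  exact h2.2

/-- The subgroup generated by the letters different from `0`. -/
def A0 (m : ℕ) : Subgroup (FreeGroup (Fin (m + 3))) :=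
  Subgroup.closure {g | ∃ j : Fin (m + 3), j ≠ 0 ∧ g = FreeGroup.of j}

theorem mk_mem_A0 {r : List (Fin (m + 3) × Bool)} (hr0 : ∀ a ∈ r, a.1 ≠ 0) : mk r ∈ A0 m := by
  induction r with
  | nil => rw [← one_eq_mk]; exact Subgroup.one_mem _
  | cons a r ih =>
    have h1 : mk (a :: r) = mk [a] * mk r := by rw [mul_mk]; rfl
    rw [h1]
    apply Subgroup.mul_mem _ _ (ih (fun b hb => hr0 b (by simp [hb])))
    have ha := hr0 a (by simp)
    obtain ⟨i, b⟩ := a
    cases b with
    | true => exact Subgroup.subset_closure ⟨i, ha, rfl⟩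
    | false =>
      have h2 : mk [(i, false)] = (FreeGroup.of i)⁻¹ := by
        rw [FreeGroup.of, mk_cancel]
        rfl
      rw [h2]
      exact Subgroup.inv_mem _ (Subgroup.subset_closure ⟨i, ha, rfl⟩)

/-- Partial conjugation. -/
def pc (ρ : FreeGroup (Fin (m + 3))) : FreeGroup (Fin (m + 3)) →* FreeGroup (Fin (m + 3)) :=
  FreeGroup.lift (fun j => if j = 0 then FreeGroup.of 0 else ρ⁻¹ * FreeGroup.of j * ρ)

theorem pc_zero (ρ : FreeGroup (Fin (m + 3))) : pc ρ (FreeGroup.of 0) = FreeGroup.of 0 := by
  simp [pc]

theorem pc_A0 (ρ : FreeGroup (Fin (m + 3))) {g : FreeGroup (Fin (m + 3))} (hg : g ∈ A0 m) :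
    pc ρ g = ρ⁻¹ * g * ρ := by
  unfold A0 at hg
  induction hg using Subgroup.closure_induction with
  | mem g hg =>
    obtain ⟨j, hj, rfl⟩ := hg
    simp [pc, hj]
  | one => simp
  | mul g h _ _ hg hh => rw [_root_.map_mul, hg, hh]; group
  | inv g _ hg => rw [_root_.map_inv, hg]; group

theorem pc_comp {ρ : FreeGroup (Fin (m + 3))} (hρ : ρ ∈ A0 m) :
    (pc ρ).comp (pc ρ⁻¹) = MonoidHom.id _ := by
  ext1 j
  by_cases hj : j = 0
  · subst hj
    simp [pc_zero]
  · have h1 : FreeGroup.of j ∈ A0 m := Subgroup.subset_closure ⟨j, hj, rfl⟩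
    rw [MonoidHom.comp_apply, pc_A0 _ h1, pc_A0]
    · simp [mul_assoc]
    · exact Subgroup.mul_mem _ (Subgroup.mul_mem _ (Subgroup.inv_mem _ (Subgroup.inv_mem _ hρ)) h1)
        (Subgroup.inv_mem _ hρ)

/-- Partial conjugation as an automorphism. -/
def pcAut {ρ : FreeGroup (Fin (m + 3))} (hρ : ρ ∈ A0 m) :
    FreeGroup (Fin (m + 3)) ≃* FreeGroup (Fin (m + 3)) :=
  MonoidHom.toMulEquiv (pc ρ) (pc ρ⁻¹)
    (by have := pc_comp (Subgroup.inv_mem _ hρ); rwa [inv_inv] at this) (pc_comp hρ)

theorem mk_Lw (p : ℕ) {r : List (Fin (m + 3) × Bool)} (hr0 : ∀ a ∈ r, a.1 ≠ 0) :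
    mk (Lw p r) = pcAut (mk_mem_A0 hr0) (ww (m + 3) p) := by
  have h1 : ww (m + 3) p = FreeGroup.of 0 ^ p * mk (V m p) := by
    rw [ww, finRange_eq, List.map_cons, List.prod_cons, V, mk_pw]
  have hV : mk (V m p) ∈ A0 m := by
    apply mk_mem_A0
    intro a ha
    exact nz_ne_zero _ (pw_mem _ _ _ ha)
  have h2 : pcAut (mk_mem_A0 hr0) (ww (m + 3) p) = pc (mk r) (ww (m + 3) p) := rfl
  have h3 : mk (replicate p ((0 : Fin (m + 3)), true)) = FreeGroup.of 0 ^ p := by
    rw [← toWord_of_pow, mk_toWord]
  rw [h2, h1, _root_.map_mul, map_pow, pc_zero, pc_A0 _ hV, Lw, ← mul_mk, ← mul_mk, ← mul_mk, h3,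
    inv_mk]

end words

end Pool.Agent.Growth56
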