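import Mathlib

/-!
Triangular data over a ring, and the embedding step (modules built from 3-Kronecker
representations over the field with two elements).
-/

set_option autoImplicit false

namespace Pool.Agent.Hartley56

open Matrix

/-- Triples of triangular matrices with common diagonal: `[[a, 0], [u j, b]]` for `j : Fin 3`. -/
@[ext] structure T (A : Type*) where
  a : A
  b : A
  u : Fin 3 → A

namespace T

variable {A : Type*} [Ring A]

instance : Mul (T A) := ⟨fun x y => ⟨x.a * y.a, x.b * y.b, fun j => x.u j * y.a + x.b * y.u j⟩⟩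
instance : One (T A) := ⟨⟨1, 1, 0⟩⟩

@[simp] theorem mul_a (x y : T A) : (x * y).a = x.a * y.a := rfl
@[simp] theorem mul_b (x y : T A) : (x * y).b = x.b * y.b := rfl
@[simp] theorem mul_u (x y : T A) (j : Fin 3) : (x * y).u j = x.u j * y.a + x.b * y.u j := rfl
@[simp] theorem one_a : (1 : T A).a = 1 := rfl
@[simp] theorem one_b : (1 : T A).b = 1 := rfl
@[simp] theorem one_u (j : Fin 3) : (1 : T A).u j = 0 := rfl

omit [Ring A] in
theorem ext' {x y : T A} (ha : x.a = y.a) (hb : x.b = y.b) (hu : ∀ j, x.u j = y.u j) : x = y :=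
  T.ext ha hb (funext hu)

instance : Monoid (T A) where
  mul_assoc x y z := by
    apply ext' <;> simp [mul_assoc, add_mul, mul_add, add_assoc]
  one_mul x := by apply ext' <;> simp
  mul_one x := by apply ext' <;> simp

instance {A : Type*} [Finite A] : Finite (T A) :=
  Finite.of_injective (fun x : T A => (x.a, x.b, x.u)) (by
    rintro ⟨a, b, u⟩ ⟨a', b', u'⟩ h
    simp only [Prod.mk.injEq] at h
    obtain ⟨h1, h2, h3⟩ := h
    subst h1 h2 h3
    rfl)

/-- Functoriality in the ring. -/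
def map {B : Type*} [Ring B] (e : A →+* B) : T A →* T B where
  toFun x := ⟨e x.a, e x.b, fun j => e (x.u j)⟩
  map_one' := by apply ext' <;> simp
  map_mul' x y := by apply ext' <;> simp

@[simp] theorem map_a {B : Type*} [Ring B] (e : A →+* B) (x : T A) : (map e x).a = e x.a := rfl
@[simp] theorem map_b {B : Type*} [Ring B] (e : A →+* B) (x : T A) : (map e x).b = e x.b := rfl
@[simp] theorem map_u {B : Type*} [Ring B] (e : A →+* B) (x : T A) (j : Fin 3) :
    (map e x).u j = e (x.u j) := rfl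

end T

variable {A : Type*} [Ring A] [Algebra (ZMod 2) A]

/-- `∑ j, α j ⊗ u j` -/
def U (α : Fin 3 → Matrix (Fin 2) (Fin 2) (ZMod 2)) (u : Fin 3 → A) : Matrix (Fin 2) (Fin 2) A :=
  Matrix.of fun p q => ∑ j, α j p q • u j

theorem U_apply (α : Fin 3 → Matrix (Fin 2) (Fin 2) (ZMod 2)) (u : Fin 3 → A) (p q : Fin 2) :
    U α u p q = ∑ j, α j p q • u j := rfl

/-- The action on `V ⊗ M₀ ⊕ W ⊗ M₁`. -/
def Phi1 (α : Fin 3 → Matrix (Fin 2) (Fin 2) (ZMod 2)) (x : T A) :
    Matrix (Fin 2 ⊕ Fin 2) (Fin 2 ⊕ Fin 2) A :=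
  fromBlocks (diagonal fun _ => x.a) 0 (U α x.u) (diagonal fun _ => x.b)

theorem Phi1_one (α : Fin 3 → Matrix (Fin 2) (Fin 2) (ZMod 2)) : Phi1 α (1 : T A) = 1 := by
  have : U α (1 : T A).u = 0 := by
    ext p q
    simp [U_apply]
  rw [Phi1, this]
  simp

theorem U_mul (α : Fin 3 → Matrix (Fin 2) (Fin 2) (ZMod 2)) (x y : T A) :
    U α (x * y).u = U α x.u * (diagonal fun _ => y.a) + (diagonal fun _ => x.b) * U α y.u := by
  ext p q
  simp only [U_apply, T.mul_u, Matrix.add_apply, Matrix.mul_diagonal, Matrix.diagonal_mul,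
    Finset.sum_mul, Finset.mul_sum, smul_add, smul_mul_assoc, mul_smul_comm,
    Finset.sum_add_distrib]

theorem Phi1_mul (α : Fin 3 → Matrix (Fin 2) (Fin 2) (ZMod 2)) (x y : T A) :
    Phi1 α (x * y) = Phi1 α x * Phi1 α y := by
  rw [Phi1, Phi1, Phi1, fromBlocks_multiply, U_mul]
  simp [diagonal_mul_diagonal]

/-- The off-diagonal part. -/
def Off (γ : Fin 3 → Matrix (Fin 2) (Fin 2) (ZMod 2)) (u : Fin 3 → A) :
    Matrix (Fin 2 ⊕ Fin 2) (Fin 2 ⊕ Fin 2) A :=
  fromBlocks 0 0 (U γ u) 0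

theorem Off_mul (α α' γ : Fin 3 → Matrix (Fin 2) (Fin 2) (ZMod 2)) (x y : T A) :
    Off γ (x * y).u = Off γ x.u * Phi1 α y + Phi1 α' x * Off γ y.u := by
  rw [Phi1, Phi1, Off, Off, Off, fromBlocks_multiply, fromBlocks_multiply, U_mul, fromBlocks_add]
  simp

/-- The embedding step. -/
def Phi (α α' : Fin 3 → Matrix (Fin 2) (Fin 2) (ZMod 2))
    (γ : Fin 3 → Fin 3 → Matrix (Fin 2) (Fin 2) (ZMod 2)) :
    T A →* T (Matrix (Fin 2 ⊕ Fin 2) (Fin 2 ⊕ Fin 2) A) where
  toFun x := ⟨Phi1 α x, Phi1 α' x, fun l => Off (γ l) x.u⟩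
  map_one' := by
    apply T.ext'
    · exact Phi1_one α
    · exact Phi1_one α'
    · intro j
      have : U (γ j) (1 : T A).u = 0 := by
        ext p q
        simp [U_apply]
      simp [Off, this]
  map_mul' x y := by
    apply T.ext'
    · exact Phi1_mul α x y
    · exact Phi1_mul α' x y
    · intro j
      exact Off_mul α α' (γ j) x y

/-- Two orthogonal bricks with three independent extension classes. -/
structure Good {S : Type*} (ρ : S → T A) : Prop where
  aa : ∀ x : A, (∀ s, (ρ s).a * x = x * (ρ s).a) → ∃ c : ZMod 2, x = algebraMap (ZMod 2) A c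
  bb : ∀ x : A, (∀ s, (ρ s).b * x = x * (ρ s).b) → ∃ c : ZMod 2, x = algebraMap (ZMod 2) A c
  ab : ∀ x : A, (∀ s, (ρ s).b * x = x * (ρ s).a) → x = 0
  ba : ∀ x : A, (∀ s, (ρ s).a * x = x * (ρ s).b) → x = 0
  ext : ∀ (c : Fin 3 → ZMod 2) (x : A),
    (∀ s, ∑ j, c j • (ρ s).u j + x * (ρ s).a = (ρ s).b * x) → c = 0

theorem map_mul_U (Y : Matrix (Fin 2) (Fin 2) (ZMod 2))
    (α : Fin 3 → Matrix (Fin 2) (Fin 2) (ZMod 2)) (u : Fin 3 → A) :
    Y.map (algebraMap (ZMod 2) A) * U α u = U (fun j => Y * α j) u := by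
  ext p q
  simp only [Matrix.mul_apply, U_apply, Matrix.map_apply, Fin.sum_univ_two, Fin.sum_univ_three,
    Algebra.algebraMap_eq_smul_one, smul_mul_assoc, one_mul, add_smul, smul_add, smul_smul]
  abel

theorem U_mul_map (X : Matrix (Fin 2) (Fin 2) (ZMod 2))
    (α : Fin 3 → Matrix (Fin 2) (Fin 2) (ZMod 2)) (u : Fin 3 → A) :
    U α u * X.map (algebraMap (ZMod 2) A) = U (fun j => α j * X) u := by
  ext p q
  simp only [Matrix.mul_apply, U_apply, Matrix.map_apply, Fin.sum_univ_two, Fin.sum_univ_three,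
    Algebra.algebraMap_eq_smul_one, mul_smul_comm, mul_one, add_smul, smul_add, smul_smul]
  simp only [mul_comm]
  abel

theorem full {S : Type*} {ρ : S → T A} (h : Good ρ)
    (α α' γ : Fin 3 → Matrix (Fin 2) (Fin 2) (ZMod 2))
    (x : Matrix (Fin 2 ⊕ Fin 2) (Fin 2 ⊕ Fin 2) A)
    (hx : ∀ s, Off γ (ρ s).u + x * Phi1 α (ρ s) = Phi1 α' (ρ s) * x) :
    ∃ X Y : Matrix (Fin 2) (Fin 2) (ZMod 2),
      x = fromBlocks (X.map (algebraMap (ZMod 2) A)) 0 0 (Y.map (algebraMap (ZMod 2) A)) ∧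
      ∀ j, γ j + Y * α j = α' j * X := by
  obtain ⟨x11, x12, x21, x22, rfl⟩ : ∃ x11 x12 x21 x22, x = fromBlocks x11 x12 x21 x22 :=
    ⟨_, _, _, _, (fromBlocks_toBlocks x).symm⟩
  have hs : ∀ s, x11 * diagonal (fun _ => (ρ s).a) + x12 * U α (ρ s).u =
        diagonal (fun _ => (ρ s).a) * x11 ∧
      x12 * diagonal (fun _ => (ρ s).b) = diagonal (fun _ => (ρ s).a) * x12 ∧
      U γ (ρ s).u + (x21 * diagonal (fun _ => (ρ s).a) + x22 * U α (ρ s).u) =
        U α' (ρ s).u * x11 + diagonal (fun _ => (ρ s).b) * x21 ∧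
      x22 * diagonal (fun _ => (ρ s).b) =
        U α' (ρ s).u * x12 + diagonal (fun _ => (ρ s).b) * x22 := by
    intro s
    have := hx s
    rw [Off, Phi1, Phi1, fromBlocks_multiply, fromBlocks_multiply, fromBlocks_add,
      fromBlocks_inj] at this
    simpa using this
  have h12 : x12 = 0 := by
    ext p q
    apply h.ba
    intro s
    have := congrFun (congrFun (hs s).2.1 p) q
    simp only [diagonal_mul, mul_diagonal] at this
    exact this.symm
  subst h12
  have h11 : ∀ p q, ∃ c : ZMod 2, x11 p q = algebraMap (ZMod 2) A c := by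
    intro p q
    apply h.aa
    intro s
    have := congrFun (congrFun (hs s).1 p) q
    simp only [diagonal_mul, mul_diagonal, Matrix.zero_mul, add_zero] at this
    exact this.symm
  have h22 : ∀ p q, ∃ c : ZMod 2, x22 p q = algebraMap (ZMod 2) A c := by
    intro p q
    apply h.bb
    intro s
    have := congrFun (congrFun (hs s).2.2.2 p) q
    simp only [diagonal_mul, mul_diagonal, Matrix.mul_zero, zero_add] at this
    exact this.symm
  choose X hX using h11
  choose Y hY using h22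
  have hX' : x11 = (Matrix.of X).map (algebraMap (ZMod 2) A) := by
    ext p q
    exact hX p q
  have hY' : x22 = (Matrix.of Y).map (algebraMap (ZMod 2) A) := by
    ext p q
    exact hY p q
  have key : ∀ p q s, ∑ j, (γ j + Matrix.of Y * α j - α' j * Matrix.of X) p q • (ρ s).u j +
      x21 p q * (ρ s).a = (ρ s).b * x21 p q := by
    intro p q s
    have := (hs s).2.2.1
    rw [hX', hY', map_mul_U, U_mul_map] at this
    have := congrFun (congrFun this p) q
    simp only [Matrix.add_apply, mul_diagonal, diagonal_mul, U_apply] at this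
    simp only [Matrix.sub_apply, Matrix.add_apply, sub_smul, add_smul, Finset.sum_sub_distrib,
      Finset.sum_add_distrib]
    rw [sub_add_eq_add_sub, sub_eq_iff_eq_add]
    rw [add_comm ((ρ s).b * x21 p q), ← this]
    abel
  have hc : ∀ p q, (fun j => (γ j + Matrix.of Y * α j - α' j * Matrix.of X) p q) = 0 :=
    fun p q => h.ext _ _ (key p q)
  have h21 : x21 = 0 := by
    ext p q
    apply h.ab
    intro s
    have := key p q s
    simp only [fun j => congrFun (hc p q) j, Pi.zero_apply, zero_smul, Finset.sum_const_zero,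
      zero_add] at this
    exact this.symm
  refine ⟨Matrix.of X, Matrix.of Y, by rw [← hX', ← hY', h21], fun j => ?_⟩
  ext p q
  have := congrFun (hc p q) j
  simp only [Matrix.sub_apply, Pi.zero_apply] at this
  exact sub_eq_zero.1 this

/-- The first brick. -/
def al : Fin 3 → Matrix (Fin 2) (Fin 2) (ZMod 2) := ![1, !![0, 1; 0, 0], !![0, 0; 1, 0]]

/-- The second brick. -/
def al' : Fin 3 → Matrix (Fin 2) (Fin 2) (ZMod 2) := ![1, !![1, 0; 0, 0], !![0, 1; 1, 0]]

/-- The three extension classes. -/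
def ga : Fin 3 → Fin 3 → Matrix (Fin 2) (Fin 2) (ZMod 2) :=
  ![![0, 0, !![1, 0; 0, 0]], ![0, 0, !![0, 0; 0, 1]], ![0, 0, !![0, 1; 0, 0]]]

theorem fin_aa : ∀ X Y : Matrix (Fin 2) (Fin 2) (ZMod 2),
    (∀ j, 0 + Y * al j = al j * X) → Y = X ∧ ∃ c : ZMod 2, X = c • 1 := by
  decide +kernel

theorem fin_bb : ∀ X Y : Matrix (Fin 2) (Fin 2) (ZMod 2),
    (∀ j, 0 + Y * al' j = al' j * X) → Y = X ∧ ∃ c : ZMod 2, X = c • 1 := by
  decide +kernel

theorem fin_ab : ∀ X Y : Matrix (Fin 2) (Fin 2) (ZMod 2),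
    (∀ j, 0 + Y * al j = al' j * X) → X = 0 ∧ Y = 0 := by
  decide +kernel

theorem fin_ba : ∀ X Y : Matrix (Fin 2) (Fin 2) (ZMod 2),
    (∀ j, 0 + Y * al' j = al j * X) → X = 0 ∧ Y = 0 := by
  decide +kernel

theorem fin_ext : ∀ (X Y : Matrix (Fin 2) (Fin 2) (ZMod 2)) (c : Fin 3 → ZMod 2),
    (∀ j, ∑ l, c l • ga l j + Y * al j = al' j * X) → c = 0 := by
  decide +kernel

theorem Off_zero (u : Fin 3 → A) : Off 0 u = 0 := by
  have : U 0 u = 0 := by
    ext p q
    simp [U_apply]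
  rw [Off, this]
  simp

theorem scalar_form (X : Matrix (Fin 2) (Fin 2) (ZMod 2)) (c : ZMod 2) (hX : X = c • 1) :
    (fromBlocks (X.map (algebraMap (ZMod 2) A)) 0 0 (X.map (algebraMap (ZMod 2) A)) :
      Matrix (Fin 2 ⊕ Fin 2) (Fin 2 ⊕ Fin 2) A) = algebraMap (ZMod 2) _ c := by
  subst hX
  have : ((c • (1 : Matrix (Fin 2) (Fin 2) (ZMod 2))).map (algebraMap (ZMod 2) A)) = c • 1 := by
    ext p q
    simp only [Matrix.map_apply, Matrix.smul_apply, Matrix.one_apply, smul_eq_mul,
      Algebra.algebraMap_eq_smul_one]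
    split_ifs <;> simp
  rw [this, Algebra.algebraMap_eq_smul_one, ← fromBlocks_one, fromBlocks_smul]
  simp

theorem Off_sum (c : Fin 3 → ZMod 2) (u : Fin 3 → A) :
    ∑ l, c l • Off (ga l) u = Off (fun j => ∑ l, c l • ga l j) u := by
  simp only [Off, fromBlocks_smul, smul_zero, Fin.sum_univ_three, fromBlocks_add, add_zero]
  congr 1
  ext p q
  simp only [Matrix.add_apply, Matrix.smul_apply, U_apply, Fin.sum_univ_three, smul_add,
    add_smul, smul_smul, smul_eq_mul]
  abel

theorem Good.step {S : Type*} {ρ : S → T A} (h : Good ρ) :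
    Good (fun s => Phi al al' ga (ρ s)) where
  aa x hx := by
    obtain ⟨X, Y, rfl, hXY⟩ := full h al al 0 x
      (fun s => by rw [Off_zero, zero_add]; exact (hx s).symm)
    obtain ⟨rfl, c, hc⟩ := fin_aa X Y hXY
    exact ⟨c, scalar_form _ c hc⟩
  bb x hx := by
    obtain ⟨X, Y, rfl, hXY⟩ := full h al' al' 0 x
      (fun s => by rw [Off_zero, zero_add]; exact (hx s).symm)
    obtain ⟨rfl, c, hc⟩ := fin_bb X Y hXY
    exact ⟨c, scalar_form _ c hc⟩
  ab x hx := by
    obtain ⟨X, Y, rfl, hXY⟩ := full h al al' 0 x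
      (fun s => by rw [Off_zero, zero_add]; exact (hx s).symm)
    obtain ⟨rfl, rfl⟩ := fin_ab X Y hXY
    simp
  ba x hx := by
    obtain ⟨X, Y, rfl, hXY⟩ := full h al' al 0 x
      (fun s => by rw [Off_zero, zero_add]; exact (hx s).symm)
    obtain ⟨rfl, rfl⟩ := fin_ba X Y hXY
    simp
  ext c x hx := by
    obtain ⟨X, Y, rfl, hXY⟩ := full h al al' (fun j => ∑ l, c l • ga l j) x
      (fun s => by rw [← Off_sum]; exact hx s)
    exact fin_ext X Y c hXY

theorem Good.map {S B : Type*} [Ring B] [Algebra (ZMod 2) B] {ρ : S → T A} (h : Good ρ)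
    (e : A ≃ₐ[ZMod 2] B) : Good (fun s => T.map (e : A →+* B) (ρ s)) where
  aa x hx := by
    obtain ⟨c, hc⟩ := h.aa (e.symm x) (fun s => e.injective (by simpa using hx s))
    exact ⟨c, by rw [← e.commutes, ← hc]; simp⟩
  bb x hx := by
    obtain ⟨c, hc⟩ := h.bb (e.symm x) (fun s => e.injective (by simpa using hx s))
    exact ⟨c, by rw [← e.commutes, ← hc]; simp⟩
  ab x hx := by
    have := h.ab (e.symm x) (fun s => e.injective (by simpa using hx s))
    simpa using this
  ba x hx := by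
    have := h.ba (e.symm x) (fun s => e.injective (by simpa using hx s))
    simpa using this
  ext c x hx := by
    refine h.ext c (e.symm x) (fun s => e.injective ?_)
    simpa [Finset.sum] using hx s

end Pool.Agent.Hartley56
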