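import Mathlib
import Pool.Agent.helper56.HartleyA

/-!
Normal subgroups of the groups of invertible triangular data.
-/

set_option autoImplicit false

namespace Pool.Agent.Hartley56

open Matrix

section units

variable {ι : Type*} [Fintype ι] [DecidableEq ι]

omit [Fintype ι] [DecidableEq ι] in
theorem two_eq_zero' (M : Matrix ι ι (ZMod 2)) : M + M = 0 := by
  ext p q
  simp only [Matrix.add_apply, Matrix.zero_apply]
  exact CharTwo.add_self_eq_zero _

theorem sq_single {i j : ι} (h : i ≠ j) :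
    (single i j (1 : ZMod 2)) * (single i j (1 : ZMod 2)) = 0 := by
  rw [single_mul_single_of_ne]
  exact h.symm

/-- The elementary transvection `1 + E i j` as a unit. -/
def tv (i j : ι) (h : i ≠ j) : (Matrix ι ι (ZMod 2))ˣ where
  val := 1 + single i j 1
  inv := 1 + single i j 1
  val_inv := by
    rw [mul_add, mul_one, add_mul, one_mul, sq_single h, add_zero, add_assoc, two_eq_zero',
      add_zero]
  inv_val := by
    rw [mul_add, mul_one, add_mul, one_mul, sq_single h, add_zero, add_assoc, two_eq_zero',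
      add_zero]

theorem tv_val (i j : ι) (h : i ≠ j) : ((tv i j h : (Matrix ι ι (ZMod 2))ˣ) : Matrix ι ι (ZMod 2))
    = 1 + single i j 1 := rfl

theorem tv_comm {i j l : ι} (h1 : i ≠ j) (h2 : j ≠ l) (h3 : i ≠ l) :
    tv i j h1 * tv j l h2 * (tv i j h1)⁻¹ * (tv j l h2)⁻¹ = tv i l h3 := by
  rw [mul_inv_eq_iff_eq_mul, mul_inv_eq_iff_eq_mul]
  ext1
  simp only [Units.val_mul, tv_val]
  have e1 : single i j (1 : ZMod 2) * single j l 1 = single i l 1 := by
    rw [single_mul_single_same, mul_one]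
  have e2 : single i l (1 : ZMod 2) * single j l 1 = 0 := by
    rw [single_mul_single_of_ne]
    exact h2.symm
  have e3 : single i l (1 : ZMod 2) * single i j 1 = 0 := by
    rw [single_mul_single_of_ne]
    exact h3.symm
  have e4 : single j l (1 : ZMod 2) * single i j 1 = 0 := by
    rw [single_mul_single_of_ne]
    exact h3.symm
  simp only [mul_add, add_mul, mul_one, one_mul, e1, e2, e3, e4, add_zero]
  abel

/-- A normal subgroup containing one elementary transvection is everything. -/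
theorem normal_eq_top (P : Subgroup (Matrix ι ι (ZMod 2))ˣ) [P.Normal]
    (h3 : ∀ i j : ι, ∃ l, l ≠ i ∧ l ≠ j)
    {i j : ι} (hij : i ≠ j) (h : tv i j hij ∈ P) : P = ⊤ := by
  have hcomm : ∀ g h : (Matrix ι ι (ZMod 2))ˣ, g ∈ P → g * h * g⁻¹ * h⁻¹ ∈ P := by
    intro g h hg
    have h1 := Subgroup.Normal.conj_mem ‹P.Normal› _ (P.inv_mem hg) h
    have h2 := P.mul_mem hg h1
    simpa [mul_assoc] using h2
  have hcomm' : ∀ g h : (Matrix ι ι (ZMod 2))ˣ, h ∈ P → g * h * g⁻¹ * h⁻¹ ∈ P := by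
    intro g h hg
    have h1 := Subgroup.Normal.conj_mem ‹P.Normal› _ hg g
    exact P.mul_mem h1 (P.inv_mem hg)
  have s1 : ∀ m, ∀ hm : i ≠ m, tv i m hm ∈ P := by
    intro m hm
    by_cases hjm : j = m
    · subst hjm
      exact h
    · rw [← tv_comm hij hjm hm]
      exact hcomm _ _ h
  have s2 : ∀ p m, ∀ hm : p ≠ m, m ≠ i → tv p m hm ∈ P := by
    intro p m hm hmi
    by_cases hpi : p = i
    · subst hpi
      exact s1 m hm
    · rw [← tv_comm hpi hmi.symm hm]
      exact hcomm' _ _ (s1 m hmi.symm)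
  have s3 : ∀ p m, ∀ hm : p ≠ m, tv p m hm ∈ P := by
    intro p m hm
    by_cases hmi : m = i
    · subst hmi
      obtain ⟨r, hrp, hrm⟩ := h3 p m
      rw [← tv_comm hrp.symm hrm hm]
      exact hcomm _ _ (s2 p r hrp.symm hrm)
    · exact s2 p m hm hmi
  rw [Subgroup.eq_top_iff']
  intro g
  have key : ∃ h ∈ P, (h : Matrix ι ι (ZMod 2)) = (g : Matrix ι ι (ZMod 2)) := by
    apply diagonal_transvection_induction_of_det_ne_zero
      (fun M => ∃ h ∈ P, (h : Matrix ι ι (ZMod 2)) = M)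
    · exact (Matrix.isUnits_det_units g).ne_zero
    · intro D hD
      have hD1 : D = fun _ => 1 := by
        funext i
        rw [det_diagonal, Finset.prod_ne_zero_iff] at hD
        have := hD i (Finset.mem_univ i)
        revert this
        generalize D i = x
        revert x
        decide
      refine ⟨1, P.one_mem, ?_⟩
      rw [hD1]
      simp
    · rintro ⟨p, q, hpq, c⟩
      by_cases hc : c = 0
      · subst hc
        exact ⟨1, P.one_mem, by simp [TransvectionStruct.toMatrix]⟩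
      · have : c = 1 := by
          revert hc
          revert c
          decide
        subst this
        exact ⟨tv p q hpq, s3 p q hpq, rfl⟩
    · rintro A B _ _ ⟨a, ha, rfl⟩ ⟨b, hb, rfl⟩
      exact ⟨a * b, P.mul_mem ha hb, rfl⟩
  obtain ⟨h, hP, hg⟩ := key
  rwa [← Units.ext hg]

/-- The central units are trivial. -/
theorem unit_eq_one_of_central (g : (Matrix ι ι (ZMod 2))ˣ)
    (h : ∀ x : Matrix ι ι (ZMod 2), (g : Matrix ι ι (ZMod 2)) * x = x * g) : g = 1 := by
  obtain ⟨c, hc⟩ := mem_range_scalar_of_commute_transvectionStruct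
    (M := (g : Matrix ι ι (ZMod 2))) (fun t => (h _).symm)
  by_cases hc0 : c = 0
  · subst hc0
    simp only [map_zero] at hc
    ext1
    have := g.isUnit
    rw [← hc] at this
    have h1 : (0 : Matrix ι ι (ZMod 2)) = 1 := by
      have := isUnit_zero_iff.1 this
      exact this
    rw [← hc]
    exact h1
  · have : c = 1 := by
      clear hc
      revert hc0
      revert c
      decide
    subst this
    ext1
    rw [← hc]
    simp

end units

section groups

variable {A : Type*} [Ring A]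

/-- Units of `T A` from their components. -/
def mk (p q : Aˣ) (c : Fin 3 → A) : (T A)ˣ where
  val := ⟨p, q, c⟩
  inv := ⟨(p⁻¹ : Aˣ), (q⁻¹ : Aˣ), fun j => -((q⁻¹ : Aˣ) * c j * (p⁻¹ : Aˣ))⟩
  val_inv := by
    apply T.ext'
    · simp
    · simp
    · intro j
      simp [mul_assoc]
  inv_val := by
    apply T.ext'
    · simp
    · simp
    · intro j
      simp [mul_assoc]

@[simp] theorem mk_a (p q : Aˣ) (c : Fin 3 → A) : ((mk p q c : (T A)ˣ) : T A).a = p := rfl
@[simp] theorem mk_b (p q : Aˣ) (c : Fin 3 → A) : ((mk p q c : (T A)ˣ) : T A).b = q := rfl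
@[simp] theorem mk_u (p q : Aˣ) (c : Fin 3 → A) : ((mk p q c : (T A)ˣ) : T A).u = c := rfl

/-- The first diagonal component. -/
def aHom : T A →* A where
  toFun := T.a
  map_one' := rfl
  map_mul' _ _ := rfl

/-- The second diagonal component. -/
def bHom : T A →* A where
  toFun := T.b
  map_one' := rfl
  map_mul' _ _ := rfl

/-- The first diagonal component of a unit. -/
def ga1 (g : (T A)ˣ) : Aˣ := Units.map aHom g

/-- The second diagonal component of a unit. -/
def gb1 (g : (T A)ˣ) : Aˣ := Units.map bHom g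

@[simp] theorem ga1_val (g : (T A)ˣ) : ((ga1 g : Aˣ) : A) = (g : T A).a := rfl
@[simp] theorem gb1_val (g : (T A)ˣ) : ((gb1 g : Aˣ) : A) = (g : T A).b := rfl

theorem eq_mk (g : (T A)ˣ) : g = mk (ga1 g) (gb1 g) (g : T A).u := by
  ext1
  apply T.ext' <;> simp

theorem mk_mul (p q p' q' : Aˣ) (c c' : Fin 3 → A) :
    mk p q c * mk p' q' c' = mk (p * p') (q * q') (fun j => c j * p' + q * c' j) := by
  ext1
  apply T.ext' <;> simp

theorem mk_conj (g : (T A)ˣ) (c : Fin 3 → A) :
    g * mk 1 1 c * g⁻¹ = mk 1 1 (fun j => gb1 g * c j * ((ga1 g)⁻¹ : Aˣ)) := by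
  rw [mul_inv_eq_iff_eq_mul]
  ext1
  apply T.ext'
  · simp
  · simp
  · intro j
    simp only [Units.val_mul, T.mul_u, mk_a, mk_b, mk_u, Units.val_one, mul_one, one_mul]
    rw [mul_assoc (gb1 g * c j : A), ← ga1_val g, Units.inv_mul, mul_one, gb1_val, add_comm]

theorem mk_add (c d : Fin 3 → A) : mk (1 : Aˣ) 1 c * mk 1 1 d = mk 1 1 (c + d) := by
  rw [mk_mul]
  ext1
  apply T.ext'
  · simp
  · simp
  · intro j
    simp

theorem mk_one : mk (1 : Aˣ) 1 (0 : Fin 3 → A) = 1 := by
  ext1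
  apply T.ext'
  · simp
  · simp
  · intro j
    simp

theorem mk_inv (c : Fin 3 → A) : (mk (1 : Aˣ) 1 c)⁻¹ = mk 1 1 (-c) := by
  rw [inv_eq_iff_mul_eq_one, mk_add, add_neg_cancel, mk_one]

/-- The diagonal embedding into the first component. -/
def ia : Aˣ →* (T A)ˣ where
  toFun p := mk p 1 0
  map_one' := mk_one
  map_mul' p q := by
    rw [mk_mul]
    ext1
    apply T.ext'
    · simp
    · simp
    · intro j
      simp

/-- The diagonal embedding into the second component. -/
def ib : Aˣ →* (T A)ˣ where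
  toFun p := mk 1 p 0
  map_one' := mk_one
  map_mul' p q := by
    rw [mk_mul]
    ext1
    apply T.ext'
    · simp
    · simp
    · intro j
      simp

end groups

section normal

variable {ι : Type*} [Fintype ι] [DecidableEq ι]

/-- The coefficients `c` with `mk 1 1 (Pi.single j c) ∈ N` -/
def I (N : Subgroup (T (Matrix ι ι (ZMod 2)))ˣ) (j : Fin 3) :
    AddSubgroup (Matrix ι ι (ZMod 2)) where
  carrier := {c | mk 1 1 (Pi.single j c) ∈ N}
  zero_mem' := by
    simp only [Set.mem_ofPred_eq, Pi.single_zero]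
    rw [mk_one]
    exact N.one_mem
  add_mem' := by
    intro a b ha hb
    simp only [Set.mem_ofPred_eq, Pi.single_add] at *
    rw [← mk_add]
    exact N.mul_mem ha hb
  neg_mem' := by
    intro a ha
    simp only [Set.mem_ofPred_eq, Pi.single_neg] at *
    rw [← mk_inv]
    exact N.inv_mem ha

theorem mem_I {N : Subgroup (T (Matrix ι ι (ZMod 2)))ˣ} {j : Fin 3}
    {c : Matrix ι ι (ZMod 2)} : c ∈ I N j ↔ mk 1 1 (Pi.single j c) ∈ N := Iff.rfl

theorem I_conj (N : Subgroup (T (Matrix ι ι (ZMod 2)))ˣ) [N.Normal] (j : Fin 3)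
    {c : Matrix ι ι (ZMod 2)} (hc : c ∈ I N j) (p q : (Matrix ι ι (ZMod 2))ˣ) :
    (q : Matrix ι ι (ZMod 2)) * c * (p : Matrix ι ι (ZMod 2)) ∈ I N j := by
  rw [mem_I] at *
  have := Subgroup.Normal.conj_mem ‹N.Normal› _ hc (mk p⁻¹ q 0)
  rw [mk_conj] at this
  convert this using 2
  funext l
  by_cases hl : l = j
  · subst hl
    have e1 : ((ga1 (mk p⁻¹ q 0))⁻¹ : (Matrix ι ι (ZMod 2))ˣ) = p := by
      have : ga1 (mk p⁻¹ q 0) = p⁻¹ := by
        ext1
        simp
      rw [this, inv_inv]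
    have e2 : gb1 (mk p⁻¹ q 0) = q := by
      ext1
      simp
    rw [e1, e2]
    simp
  · simp [hl]

theorem I_left (N : Subgroup (T (Matrix ι ι (ZMod 2)))ˣ) [N.Normal] (j : Fin 3)
    (h2 : ∀ i : ι, ∃ l, l ≠ i)
    {c : Matrix ι ι (ZMod 2)} (hc : c ∈ I N j) (r i : ι) : single r i 1 * c ∈ I N j := by
  have key : ∀ r i : ι, r ≠ i → ∀ c ∈ I N j, single r i 1 * c ∈ I N j := by
    intro r i hri c hc
    have h1 := I_conj N j hc 1 (tv r i hri)
    rw [tv_val, Units.val_one, mul_one, add_mul, one_mul] at h1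
    have := (I N j).sub_mem h1 hc
    simpa using this
  by_cases hri : r = i
  · subst hri
    obtain ⟨l, hl⟩ := h2 r
    have := key r l hl.symm _ (key l r hl c hc)
    rwa [← mul_assoc, single_mul_single_same, mul_one] at this
  · exact key r i hri c hc

theorem I_right (N : Subgroup (T (Matrix ι ι (ZMod 2)))ˣ) [N.Normal] (j : Fin 3)
    (h2 : ∀ i : ι, ∃ l, l ≠ i)
    {c : Matrix ι ι (ZMod 2)} (hc : c ∈ I N j) (r i : ι) : c * single r i 1 ∈ I N j := by
  have key : ∀ r i : ι, r ≠ i → ∀ c ∈ I N j, c * single r i 1 ∈ I N j := by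
    intro r i hri c hc
    have h1 := I_conj N j hc (tv r i hri) 1
    rw [tv_val, Units.val_one, one_mul, mul_add, mul_one] at h1
    have := (I N j).sub_mem h1 hc
    simpa using this
  by_cases hri : r = i
  · subst hri
    obtain ⟨l, hl⟩ := h2 r
    have := key l r hl _ (key r l hl.symm c hc)
    rwa [mul_assoc, single_mul_single_same, mul_one] at this
  · exact key r i hri c hc

theorem I_eq_top (N : Subgroup (T (Matrix ι ι (ZMod 2)))ˣ) [N.Normal] (j : Fin 3)
    (h2 : ∀ i : ι, ∃ l, l ≠ i)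
    {c : Matrix ι ι (ZMod 2)} (hc : c ∈ I N j) (hc0 : c ≠ 0) : ∀ x, x ∈ I N j := by
  obtain ⟨p, q, hpq⟩ : ∃ p q, c p q ≠ 0 := by
    by_contra hcon
    push Not at hcon
    exact hc0 (by ext p q; exact hcon p q)
  have hpq1 : c p q = 1 := by
    revert hpq
    generalize c p q = x
    revert x
    decide
  have hs : ∀ r s : ι, single r s (1 : ZMod 2) ∈ I N j := by
    intro r s
    have h1 := I_right N j h2 (I_left N j h2 hc r p) q s
    rw [single_mul_mul_single, hpq1, mul_one, mul_one] at h1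
    exact h1
  intro x
  rw [matrix_eq_sum_single x]
  refine sum_mem fun r _ => sum_mem fun s _ => ?_
  generalize x r s = y
  by_cases hy : y = 0
  · subst hy
    simp
  · have : y = 1 := by
      revert hy
      revert y
      decide
    subst this
    exact hs r s

theorem all_mk_mem (N : Subgroup (T (Matrix ι ι (ZMod 2)))ˣ) [N.Normal]
    (h2 : ∀ i : ι, ∃ l, l ≠ i)
    (g : (T (Matrix ι ι (ZMod 2)))ˣ) (hg : g ∈ N)
    (hg1 : (g : T (Matrix ι ι (ZMod 2))).a ≠ 1) (c : Fin 3 → Matrix ι ι (ZMod 2)) :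
    mk 1 1 c ∈ N := by
  have hI : ∀ j, ∀ x, x ∈ I N j := by
    intro j
    have : ∃ x : Matrix ι ι (ZMod 2), (gb1 g : Matrix ι ι (ZMod 2)) * x ≠ x * ga1 g := by
      by_contra hcon
      push Not at hcon
      have h1 := hcon 1
      rw [mul_one, one_mul] at h1
      rw [h1] at hcon
      have := unit_eq_one_of_central _ hcon
      exact hg1 (by rw [← ga1_val, this]; rfl)
    obtain ⟨x, hx⟩ := this
    have hmem : mk 1 1 (Pi.single j (gb1 g * x * ((ga1 g)⁻¹ : (Matrix ι ι (ZMod 2))ˣ) - x)) ∈ N := by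
      have h1 := Subgroup.Normal.conj_mem ‹N.Normal› _ (N.inv_mem hg) (mk 1 1 (Pi.single j x))
      have h2 := N.mul_mem hg h1
      rw [← mul_assoc, ← mul_assoc, mk_conj, mk_inv, mk_add] at h2
      convert h2 using 2
      funext l
      by_cases hl : l = j
      · subst hl
        simp [sub_eq_add_neg]
      · simp [hl]
    apply I_eq_top N j h2 hmem
    intro h0
    apply hx
    rw [sub_eq_zero] at h0
    calc (gb1 g : Matrix ι ι (ZMod 2)) * x
        = gb1 g * x * ((ga1 g)⁻¹ : (Matrix ι ι (ZMod 2))ˣ) * ga1 g := by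
          rw [mul_assoc _ _ (ga1 g : Matrix ι ι (ZMod 2)), Units.inv_mul, mul_one]
      _ = x * ga1 g := by rw [h0]
  have : mk 1 1 c = mk (1 : (Matrix ι ι (ZMod 2))ˣ) 1 (Pi.single 0 (c 0)) *
      mk 1 1 (Pi.single 1 (c 1)) * mk 1 1 (Pi.single 2 (c 2)) := by
    rw [mk_add, mk_add]
    congr 1
    funext j
    fin_cases j <;> simp
  rw [this]
  exact N.mul_mem (N.mul_mem (hI 0 _) (hI 1 _)) (hI 2 _)

theorem ia_mem (N : Subgroup (T (Matrix ι ι (ZMod 2)))ˣ) [N.Normal]
    (h3 : ∀ i j : ι, ∃ l, l ≠ i ∧ l ≠ j)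
    (hall : ∀ c : Fin 3 → Matrix ι ι (ZMod 2), mk 1 1 c ∈ N)
    (g : (T (Matrix ι ι (ZMod 2)))ˣ) (hg : g ∈ N) {i j : ι} (hij : i ≠ j)
    (hga : ga1 g = tv i j hij) (p : (Matrix ι ι (ZMod 2))ˣ) : ia p ∈ N := by
  obtain ⟨l, hli, hlj⟩ := h3 i j
  have hnorm : (N.comap ia).Normal := Subgroup.Normal.comap ‹N.Normal› _
  have htop : N.comap (ia : (Matrix ι ι (ZMod 2))ˣ →* _) = ⊤ := by
    apply normal_eq_top _ h3 hli.symm
    rw [Subgroup.mem_comap]
    have h1 := Subgroup.Normal.conj_mem ‹N.Normal› _ (N.inv_mem hg) (ia (tv j l hlj.symm))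
    have h2 := N.mul_mem hg h1
    have h4 : ∃ c, g * (ia (tv j l hlj.symm) * g⁻¹ * (ia (tv j l hlj.symm))⁻¹) =
        ia (tv i l hli.symm) * mk 1 1 c := by
      refine ⟨(g * (ia (tv j l hlj.symm) * g⁻¹ * (ia (tv j l hlj.symm))⁻¹) :
        (T (Matrix ι ι (ZMod 2)))ˣ).val.u, ?_⟩
      have ea : ga1 (g * (ia (tv j l hlj.symm) * g⁻¹ * (ia (tv j l hlj.symm))⁻¹)) =
          tv i l hli.symm := by
        have hia : ga1 (ia (tv j l hlj.symm)) = tv j l hlj.symm := by
          ext1
          rfl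
        rw [← tv_comm hij hlj.symm hli.symm]
        simp only [ga1, map_mul, map_inv] at hga hia ⊢
        rw [hga, hia]
        simp only [mul_assoc]
      have eb : gb1 (g * (ia (tv j l hlj.symm) * g⁻¹ * (ia (tv j l hlj.symm))⁻¹)) = 1 := by
        have hia : gb1 (ia (tv j l hlj.symm)) = 1 := by
          ext1
          rfl
        simp only [gb1, map_mul, map_inv] at hia ⊢
        rw [hia]
        simp
      generalize g * (ia (tv j l hlj.symm) * g⁻¹ * (ia (tv j l hlj.symm))⁻¹) = y at ea eb ⊢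
      conv_lhs => rw [eq_mk y, ea, eb]
      rw [show ia (tv i l hli.symm) = mk (tv i l hli.symm) 1 0 from rfl, mk_mul]
      simp
    obtain ⟨c, hc⟩ := h4
    rw [hc] at h2
    exact (Subgroup.mul_mem_cancel_right N (hall c)).1 h2
  have : p ∈ N.comap (ia : (Matrix ι ι (ZMod 2))ˣ →* _) := by rw [htop]; trivial
  exact this

theorem ib_mem (N : Subgroup (T (Matrix ι ι (ZMod 2)))ˣ) [N.Normal]
    (h3 : ∀ i j : ι, ∃ l, l ≠ i ∧ l ≠ j)
    (hall : ∀ c : Fin 3 → Matrix ι ι (ZMod 2), mk 1 1 c ∈ N)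
    (g : (T (Matrix ι ι (ZMod 2)))ˣ) (hg : g ∈ N) {i j : ι} (hij : i ≠ j)
    (hga : gb1 g = tv i j hij) (p : (Matrix ι ι (ZMod 2))ˣ) : ib p ∈ N := by
  obtain ⟨l, hli, hlj⟩ := h3 i j
  have hnorm : (N.comap ib).Normal := Subgroup.Normal.comap ‹N.Normal› _
  have htop : N.comap (ib : (Matrix ι ι (ZMod 2))ˣ →* _) = ⊤ := by
    apply normal_eq_top _ h3 hli.symm
    rw [Subgroup.mem_comap]
    have h1 := Subgroup.Normal.conj_mem ‹N.Normal› _ (N.inv_mem hg) (ib (tv j l hlj.symm))
    have h2 := N.mul_mem hg h1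
    have h4 : ∃ c, g * (ib (tv j l hlj.symm) * g⁻¹ * (ib (tv j l hlj.symm))⁻¹) =
        mk 1 1 c * ib (tv i l hli.symm) := by
      refine ⟨(g * (ib (tv j l hlj.symm) * g⁻¹ * (ib (tv j l hlj.symm))⁻¹) :
        (T (Matrix ι ι (ZMod 2)))ˣ).val.u, ?_⟩
      have ea : gb1 (g * (ib (tv j l hlj.symm) * g⁻¹ * (ib (tv j l hlj.symm))⁻¹)) =
          tv i l hli.symm := by
        have hia : gb1 (ib (tv j l hlj.symm)) = tv j l hlj.symm := by
          ext1
          rfl
        rw [← tv_comm hij hlj.symm hli.symm]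
        simp only [gb1, map_mul, map_inv] at hga hia ⊢
        rw [hga, hia]
        simp only [mul_assoc]
      have eb : ga1 (g * (ib (tv j l hlj.symm) * g⁻¹ * (ib (tv j l hlj.symm))⁻¹)) = 1 := by
        have hia : ga1 (ib (tv j l hlj.symm)) = 1 := by
          ext1
          rfl
        simp only [ga1, map_mul, map_inv] at hia ⊢
        rw [hia]
        simp
      generalize g * (ib (tv j l hlj.symm) * g⁻¹ * (ib (tv j l hlj.symm))⁻¹) = y at ea eb ⊢
      conv_lhs => rw [eq_mk y, ea, eb]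
      rw [show ib (tv i l hli.symm) = mk 1 (tv i l hli.symm) 0 from rfl, mk_mul]
      simp
    obtain ⟨c, hc⟩ := h4
    rw [hc] at h2
    exact (Subgroup.mul_mem_cancel_left N (hall c)).1 h2
  have : p ∈ N.comap (ib : (Matrix ι ι (ZMod 2))ˣ →* _) := by rw [htop]; trivial
  exact this

/-- A normal subgroup containing an element whose two diagonal components are elementary
transvections is everything. -/
theorem eq_top_of_tv (N : Subgroup (T (Matrix ι ι (ZMod 2)))ˣ) [N.Normal]
    (h3 : ∀ i j : ι, ∃ l, l ≠ i ∧ l ≠ j)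
    (g : (T (Matrix ι ι (ZMod 2)))ˣ) (hg : g ∈ N) {i j : ι} (hij : i ≠ j)
    (hga : ga1 g = tv i j hij) {i' j' : ι} (hij' : i' ≠ j') (hgb : gb1 g = tv i' j' hij') :
    N = ⊤ := by
  have hall : ∀ c : Fin 3 → Matrix ι ι (ZMod 2), mk 1 1 c ∈ N := by
    apply all_mk_mem N (fun i => ⟨_, (h3 i i).choose_spec.1⟩) g hg
    rw [← ga1_val, hga, tv_val]
    intro h
    have h1 := congrFun (congrFun h i) j
    rw [Matrix.add_apply, Matrix.one_apply_ne hij, single_apply_same] at h1
    exact absurd h1 (by decide)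
  rw [Subgroup.eq_top_iff']
  intro x
  have : x = ia (ga1 x) * ib (gb1 x) * mk 1 1 (fun j => ((gb1 x)⁻¹ : (Matrix ι ι (ZMod 2))ˣ) *
      (x : T (Matrix ι ι (ZMod 2))).u j) := by
    conv_lhs => rw [eq_mk x]
    rw [show ia (ga1 x) = mk (ga1 x) 1 0 from rfl, show ib (gb1 x) = mk 1 (gb1 x) 0 from rfl,
      mk_mul, mk_mul]
    congr 1
    · simp
    · simp
    · funext j
      simp only [Pi.zero_apply, zero_mul, mul_zero, add_zero, zero_add, one_mul]
      rw [← mul_assoc, Units.mul_inv, one_mul]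
  rw [this]
  exact N.mul_mem (N.mul_mem (ia_mem N h3 hall g hg hij hga _) (ib_mem N h3 hall g hg hij' hgb _))
    (hall _)

end normal

end Pool.Agent.Hartley56
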