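import Mathlib
import Pool.Agent.helper56.HartleyB

/-!
The chain of finite groups.
-/

set_option autoImplicit false

namespace Pool.Agent.Hartley56

open Matrix

/-- The index types. -/
def Idx : ℕ → Type
  | 0 => Fin 2
  | n + 1 => (Fin 2 ⊕ Fin 2) × Idx n

instance instFintypeIdx : ∀ n, Fintype (Idx n)
  | 0 => inferInstanceAs (Fintype (Fin 2))
  | n + 1 => @instFintypeProd _ _ _ (instFintypeIdx n)

instance instDecEqIdx : ∀ n, DecidableEq (Idx n)
  | 0 => inferInstanceAs (DecidableEq (Fin 2))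
  | n + 1 => @instDecidableEqProd _ _ _ (instDecEqIdx n)

/-- The matrix algebras. -/
abbrev Mat (n : ℕ) : Type := Matrix (Idx n) (Idx n) (ZMod 2)

/-- The finite groups. -/
abbrev Gr (n : ℕ) : Type := (T (Mat n))ˣ

instance (n : ℕ) : Finite (Mat n) := inferInstanceAs (Finite (Idx n → Idx n → ZMod 2))

instance (n : ℕ) : Finite (Gr n) := inferInstance

/-- The flattening isomorphism. -/
def flat (n : ℕ) : Matrix (Fin 2 ⊕ Fin 2) (Fin 2 ⊕ Fin 2) (Mat n) ≃ₐ[ZMod 2] Mat (n + 1) :=
  Matrix.compAlgEquiv (Fin 2 ⊕ Fin 2) (Idx n) (ZMod 2) (ZMod 2)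

/-- The step at the level of monoids. -/
def stepT (n : ℕ) : T (Mat n) →* T (Mat (n + 1)) :=
  (T.map (flat n : Matrix (Fin 2 ⊕ Fin 2) (Fin 2 ⊕ Fin 2) (Mat n) →+* Mat (n + 1))).comp
    (Phi al al' ga)

/-- The step at the level of groups. -/
def step (n : ℕ) : Gr n →* Gr (n + 1) := Units.map (stepT n)

theorem Phi1_al_injective {A : Type*} [Ring A] [Algebra (ZMod 2) A] :
    Function.Injective (Phi1 al : T A → _) := by
  intro x y h
  rw [Phi1, Phi1, fromBlocks_inj] at h
  obtain ⟨h1, -, h2, h3⟩ := h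
  apply T.ext'
  · have := congrFun (congrFun h1 0) 0
    simpa using this
  · have := congrFun (congrFun h3 0) 0
    simpa using this
  · intro j
    fin_cases j
    · have := congrFun (congrFun h2 0) 0
      simpa [U_apply, al, Fin.sum_univ_three] using this
    · have := congrFun (congrFun h2 0) 1
      simpa [U_apply, al, Fin.sum_univ_three] using this
    · have := congrFun (congrFun h2 1) 0
      simpa [U_apply, al, Fin.sum_univ_three] using this

theorem stepT_a (n : ℕ) (x : T (Mat n)) : (stepT n x).a = flat n (Phi1 al x) := rfl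
theorem stepT_b (n : ℕ) (x : T (Mat n)) : (stepT n x).b = flat n (Phi1 al' x) := rfl

theorem stepT_a_injective (n : ℕ) : Function.Injective (fun x => (stepT n x).a) :=
  (flat n).injective.comp Phi1_al_injective

theorem step_injective (n : ℕ) : Function.Injective (step n) := by
  intro x y h
  apply Units.ext
  apply stepT_a_injective n
  exact congrArg (fun z : Gr (n + 1) => (z : T (Mat (n + 1))).a) h

theorem step_a_ne_one (n : ℕ) (x : Gr n) (hx : x ≠ 1) : (step n x : T (Mat (n + 1))).a ≠ 1 := by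
  intro h
  apply hx
  apply Units.ext
  apply stepT_a_injective n
  have h1 : (step n x : T (Mat (n + 1))).a = (stepT n x).a := rfl
  simp only [← h1, h, Units.val_one, map_one, T.one_a]

theorem exists_third : ∀ n : ℕ, ∀ i j : Idx (n + 1), ∃ l, l ≠ i ∧ l ≠ j := by
  intro n i j
  have h : ∀ a b : Fin 2 ⊕ Fin 2, ∃ c, c ≠ a ∧ c ≠ b := by decide
  obtain ⟨c, hc1, hc2⟩ := h i.1 j.1
  refine ⟨(c, i.2), fun h => hc1 ?_, fun h => hc2 ?_⟩
  · rw [← h]
  · rw [← h]

theorem Phi1_al_single {A : Type*} [Ring A] [Algebra (ZMod 2) A] (c : A) :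
    Phi1 al ((mk 1 1 (Pi.single 1 c) : (T A)ˣ) : T A) = 1 + single (Sum.inr 0) (Sum.inl 1) c := by
  ext (i | i) (j | j) <;> fin_cases i <;> fin_cases j <;>
    simp [Phi1, U_apply, al, Fin.sum_univ_three]

theorem Phi1_al'_single {A : Type*} [Ring A] [Algebra (ZMod 2) A] (c : A) :
    Phi1 al' ((mk 1 1 (Pi.single 1 c) : (T A)ˣ) : T A) = 1 + single (Sum.inr 0) (Sum.inl 0) c := by
  ext (i | i) (j | j) <;> fin_cases i <;> fin_cases j <;>
    simp [Phi1, U_apply, al', Fin.sum_univ_three]

theorem flat_single (n : ℕ) (i j : Fin 2 ⊕ Fin 2) (p q : Idx n) :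
    flat n (1 + single i j (single p q 1)) = 1 + single (i, p) (j, q) 1 := by
  rw [map_add, map_one]
  congr 1
  exact comp_single_single i j p q (1 : ZMod 2)

theorem step_mk_a (n : ℕ) (p q : Idx n) :
    ga1 (step n (mk 1 1 (Pi.single 1 (single p q 1)))) =
      tv ((Sum.inr 0, p) : Idx (n + 1)) (Sum.inl 1, q) (by simp) := by
  ext1
  have h := flat_single n (Sum.inr 0) (Sum.inl 1) p q
  rw [← Phi1_al_single] at h
  exact h

theorem step_mk_b (n : ℕ) (p q : Idx n) :
    gb1 (step n (mk 1 1 (Pi.single 1 (single p q 1)))) =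
      tv ((Sum.inr 0, p) : Idx (n + 1)) (Sum.inl 0, q) (by simp) := by
  ext1
  have h := flat_single n (Sum.inr 0) (Sum.inl 0) p q
  rw [← Phi1_al'_single] at h
  exact h

instance instNonemptyIdx : ∀ n, Nonempty (Idx n)
  | 0 => ⟨(0 : Fin 2)⟩
  | n + 1 => ⟨(Sum.inl 0, (instNonemptyIdx n).some)⟩

/-- The normal closure of a nontrivial element becomes everything after two steps. -/
theorem normal_step (n : ℕ) (g : Gr n) (hg : g ≠ 1) (K : Subgroup (Gr (n + 2))) [K.Normal]
    (hK : step (n + 1) (step n g) ∈ K) : K = ⊤ := by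
  have hn : (K.comap (step (n + 1))).Normal := Subgroup.Normal.comap ‹K.Normal› _
  have h1 : ∀ c, mk 1 1 c ∈ K.comap (step (n + 1)) :=
    all_mk_mem (K.comap (step (n + 1))) (fun i => ⟨_, (exists_third n i i).choose_spec.1⟩)
      (step n g) hK (step_a_ne_one n g hg)
  obtain ⟨p⟩ := instNonemptyIdx (n + 1)
  have h2 := h1 (Pi.single 1 (single p p 1))
  rw [Subgroup.mem_comap] at h2
  exact eq_top_of_tv K (exists_third (n + 1)) _ h2 _ (step_mk_a (n + 1) p p) _
    (step_mk_b (n + 1) p p)

/-- The image of the first group in the `n`-th one. -/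
def toGr : ∀ n, Gr 0 →* Gr n
  | 0 => MonoidHom.id _
  | n + 1 => (step n).comp (toGr n)

theorem good_zero : Good (fun s : Gr 0 => (s : T (Mat 0))) where
  aa x hx := by
    have hcomm : ∀ t : TransvectionStruct (Idx 0) (ZMod 2), Commute t.toMatrix x := by
      intro t
      have ht : IsUnit t.toMatrix := by
        rw [Matrix.isUnit_iff_isUnit_det, TransvectionStruct.det]
        exact isUnit_one
      obtain ⟨p, hp⟩ := ht
      rw [← hp]
      exact hx (mk p 1 0)
    obtain ⟨c, hc⟩ := mem_range_scalar_of_commute_transvectionStruct hcomm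
    refine ⟨c, ?_⟩
    rw [← hc]
    rfl
  bb x hx := by
    have hcomm : ∀ t : TransvectionStruct (Idx 0) (ZMod 2), Commute t.toMatrix x := by
      intro t
      have ht : IsUnit t.toMatrix := by
        rw [Matrix.isUnit_iff_isUnit_det, TransvectionStruct.det]
        exact isUnit_one
      obtain ⟨p, hp⟩ := ht
      rw [← hp]
      exact hx (mk 1 p 0)
    obtain ⟨c, hc⟩ := mem_range_scalar_of_commute_transvectionStruct hcomm
    refine ⟨c, ?_⟩
    rw [← hc]
    rfl
  ab x hx := by
    have key : ∀ x : Matrix (Fin 2) (Fin 2) (ZMod 2),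
        (!![0, 1; 1, 1] : Matrix (Fin 2) (Fin 2) (ZMod 2)) * x = x → x = 0 := by
      decide +kernel
    have hu : IsUnit (!![0, 1; 1, 1] : Matrix (Fin 2) (Fin 2) (ZMod 2)) := by
      rw [Matrix.isUnit_iff_isUnit_det, Matrix.det_fin_two]
      decide
    obtain ⟨p, hp⟩ := hu
    apply key x
    have h3 : (p : Matrix (Fin 2) (Fin 2) (ZMod 2)) * (show Matrix (Fin 2) (Fin 2) (ZMod 2) from x) =
        (show Matrix (Fin 2) (Fin 2) (ZMod 2) from x) * (1 : Matrix (Fin 2) (Fin 2) (ZMod 2)) :=
      hx (mk 1 p 0)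
    rw [hp, mul_one] at h3
    exact h3
  ba x hx := by
    have key : ∀ x : Matrix (Fin 2) (Fin 2) (ZMod 2),
        (!![0, 1; 1, 1] : Matrix (Fin 2) (Fin 2) (ZMod 2)) * x = x → x = 0 := by
      decide +kernel
    have hu : IsUnit (!![0, 1; 1, 1] : Matrix (Fin 2) (Fin 2) (ZMod 2)) := by
      rw [Matrix.isUnit_iff_isUnit_det, Matrix.det_fin_two]
      decide
    obtain ⟨p, hp⟩ := hu
    apply key x
    have h3 : (p : Matrix (Fin 2) (Fin 2) (ZMod 2)) * (show Matrix (Fin 2) (Fin 2) (ZMod 2) from x) =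
        (show Matrix (Fin 2) (Fin 2) (ZMod 2) from x) * (1 : Matrix (Fin 2) (Fin 2) (ZMod 2)) :=
      hx (mk p 1 0)
    rw [hp, mul_one] at h3
    exact h3
  ext c x hx := by
    funext j
    have h1 := hx (mk 1 1 (Pi.single j 1))
    rw [mk_b, mk_a, mk_u, Units.val_one, mul_one, one_mul, add_eq_right] at h1
    rw [Finset.sum_eq_single j] at h1
    · rw [Pi.single_eq_same] at h1
      have h2 := congrFun (congrFun h1 (0 : Fin 2)) (0 : Fin 2)
      change c j * 1 = 0 at h2
      rw [mul_one] at h2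
      exact h2
    · intro i _ hij
      rw [Pi.single_eq_of_ne hij, smul_zero]
    · intro h
      exact absurd (Finset.mem_univ j) h

theorem good_all : ∀ n, Good (fun s : Gr 0 => ((toGr n s : Gr n) : T (Mat n)))
  | 0 => good_zero
  | n + 1 => (good_all n).step.map (flat n)

/-- The centralizer of the image of `Gr 0` in `Gr n` is trivial. -/
theorem centralizer_trivial (n : ℕ) (g : Gr n) (hg : ∀ s : Gr 0, toGr n s * g = g * toGr n s) :
    g = 1 := by
  have h := good_all n
  have hT : ∀ s : Gr 0, ((toGr n s : Gr n) : T (Mat n)) * g = g * ((toGr n s : Gr n) : T (Mat n)) :=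
    fun s => congrArg Units.val (hg s)
  obtain ⟨c, hc⟩ := h.aa (g : T (Mat n)).a (fun s => congrArg T.a (hT s))
  obtain ⟨d, hd⟩ := h.bb (g : T (Mat n)).b (fun s => congrArg T.b (hT s))
  have hne : (0 : Mat n) ≠ 1 := by
    intro h0
    obtain ⟨p⟩ := instNonemptyIdx n
    have := congrFun (congrFun h0 p) p
    rw [Matrix.one_apply_eq, Matrix.zero_apply] at this
    exact absurd this (by decide)
  have ha : ga1 g = 1 := by
    ext1
    rw [ga1_val, hc, Units.val_one]
    by_cases hc0 : c = 0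
    · exfalso
      have h1 : ((ga1 g : (Mat n)ˣ) : Mat n) = 0 := by rw [ga1_val, hc, hc0, map_zero]
      have h2 : ((ga1 g : (Mat n)ˣ) : Mat n) * ((ga1 g)⁻¹ : (Mat n)ˣ) = 1 := Units.mul_inv _
      rw [h1, zero_mul] at h2
      exact hne h2
    · have : c = 1 := by
        clear hc
        revert hc0
        revert c
        decide
      rw [this, map_one]
  have hb : gb1 g = 1 := by
    ext1
    rw [gb1_val, hd, Units.val_one]
    by_cases hd0 : d = 0
    · exfalso
      have h1 : ((gb1 g : (Mat n)ˣ) : Mat n) = 0 := by rw [gb1_val, hd, hd0, map_zero]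
      have h2 : ((gb1 g : (Mat n)ˣ) : Mat n) * ((gb1 g)⁻¹ : (Mat n)ˣ) = 1 := Units.mul_inv _
      rw [h1, zero_mul] at h2
      exact hne h2
    · have : d = 1 := by
        clear hd
        revert hd0
        revert d
        decide
      rw [this, map_one]
  have ha' : (g : T (Mat n)).a = 1 := by rw [← ga1_val, ha, Units.val_one]
  have hb' : (g : T (Mat n)).b = 1 := by rw [← gb1_val, hb, Units.val_one]
  have hu : (g : T (Mat n)).u = 0 := by
    funext j
    apply h.ab
    intro s
    have h1 := congrArg (fun z : T (Mat n) => z.u j) (hT s)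
    simp only [T.mul_u, ha', hb', mul_one, one_mul] at h1
    rw [add_comm] at h1
    exact add_right_cancel h1
  rw [eq_mk g, ha, hb, hu, mk_one]

end Pool.Agent.Hartley56
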