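import Mathlib
import Pool.Agent.helper56.HartleyC

/-!
The direct limit: an infinite simple locally finite group which is not linear and has a finite
subgroup with trivial centralizer.
-/

set_option autoImplicit false

namespace Pool.Agent.Hartley56

open Matrix

section limit

variable {G : ℕ → Type} [∀ n, Group (G n)] (st : ∀ n, G n →* G (n + 1))

/-- Composite transition maps. -/
def tr (i j : ℕ) (h : i ≤ j) : G i →* G j :=
  Nat.leRecOn h (fun {k} (g : G i →* G k) => (st k).comp g) (MonoidHom.id (G i))

theorem tr_self (i : ℕ) (h : i ≤ i) : tr st i i h = MonoidHom.id _ := Nat.leRecOn_self _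

theorem tr_succ (i j : ℕ) (h : i ≤ j) : tr st i (j + 1) (h.trans (Nat.le_succ j)) =
    (st j).comp (tr st i j h) := Nat.leRecOn_succ h _

theorem tr_trans (i j k : ℕ) (hij : i ≤ j) (hjk : j ≤ k) (x : G i) :
    tr st j k hjk (tr st i j hij x) = tr st i k (hij.trans hjk) x := by
  induction k, hjk using Nat.le_induction with
  | base => rw [tr_self]; rfl
  | succ k hjk ih =>
    rw [tr_succ st j k hjk, tr_succ st i k (hij.trans hjk), MonoidHom.comp_apply, ih]
    rfl

instance trSystem : DirectedSystem G (fun i j h => tr st i j h) where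
  map_self i x := by rw [tr_self]; rfl
  map_map k j i hij hjk x := tr_trans st _ _ _ hij hjk x

theorem tr_injective (hst : ∀ n, Function.Injective (st n)) (i j : ℕ) (h : i ≤ j) :
    Function.Injective (tr st i j h) := by
  induction j, h using Nat.le_induction with
  | base => rw [tr_self]; exact fun _ _ h => h
  | succ k hjk ih =>
    rw [tr_succ st i k hjk]
    exact (hst k).comp ih

theorem exists_limit (hst : ∀ n, Function.Injective (st n)) :
    ∃ (L : Type) (_ : Group L) (of : ∀ n, G n →* L), (∀ n, Function.Injective (of n)) ∧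
      (∀ n x, of (n + 1) (st n x) = of n x) ∧ (∀ y : L, ∃ n x, of n x = y) := by
  refine ⟨DirectLimit G (tr st), inferInstance,
    fun n => { toFun := fun x => (Quotient.mk _ ⟨n, x⟩ : DirectLimit G (tr st)),
               map_one' := (DirectLimit.one_def n).symm,
               map_mul' := fun x y => (DirectLimit.mul_def n x y).symm }, ?_, ?_, ?_⟩
  · intro n
    exact DirectLimit.mk_injective _ (tr_injective st hst) n
  · intro n x
    have h := DirectLimit.mk_apply (f := tr st) n (n + 1) x (Nat.le_succ n)
    rw [tr_succ st n n le_rfl, tr_self] at h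
    exact h
  · intro y
    obtain ⟨n, x, h⟩ := DirectLimit.exists_eq_mk (tr st) y
    exact ⟨n, x, h.symm⟩

end limit

/-- Linear groups contain no large families of pairs as below. -/
theorem card_le_of_linear {L : Type*} [Group L] {K : Type*} [Field K] {N : ℕ}
    (f : L →* Matrix.GeneralLinearGroup (Fin N) K) (hf : Function.Injective f)
    {σ : Type*} [Fintype σ] (x y : σ → L) (h1 : ∀ i, x i * y i ≠ y i * x i)
    (h2 : ∀ i j, i ≠ j → x i * y j = y j * x i) : Fintype.card σ ≤ N * N := by
  have hli : LinearIndependent K (fun i => ((f (x i) : Matrix.GeneralLinearGroup (Fin N) K) :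
      Matrix (Fin N) (Fin N) K)) := by
    rw [linearIndependent_iff']
    intro s c hc j hj
    have e1 := congrArg (fun M => M * ((f (y j) : Matrix.GeneralLinearGroup (Fin N) K) :
      Matrix (Fin N) (Fin N) K) - ((f (y j) : Matrix.GeneralLinearGroup (Fin N) K) :
      Matrix (Fin N) (Fin N) K) * M) hc
    simp only [Finset.sum_mul, Finset.mul_sum, zero_mul, mul_zero, sub_zero] at e1
    rw [← Finset.sum_sub_distrib, Finset.sum_eq_single j] at e1
    · rw [smul_mul_assoc, mul_smul_comm, ← smul_sub, smul_eq_zero] at e1
      rcases e1 with e1 | e1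
      · exact e1
      · exfalso
        apply h1 j
        apply hf
        rw [map_mul, map_mul]
        ext1
        rw [Units.val_mul, Units.val_mul]
        exact sub_eq_zero.1 e1
    · intro i _ hij
      rw [smul_mul_assoc, mul_smul_comm, ← smul_sub, ← Units.val_mul, ← Units.val_mul,
        ← map_mul, ← map_mul, h2 i j hij, sub_self, smul_zero]
    · intro h
      exact absurd hj h
  have := hli.fintype_card_le_finrank
  rw [Module.finrank_matrix, Fintype.card_fin, Module.finrank_self, mul_one] at this
  exact this

theorem card_Idx : ∀ n, n + 1 ≤ Fintype.card (Idx n)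
  | 0 => by
    change 0 + 1 ≤ Fintype.card (Fin 2)
    simp
  | n + 1 => by
    have ih := card_Idx n
    have : Fintype.card (Idx (n + 1)) = 4 * Fintype.card (Idx n) := by
      change Fintype.card ((Fin 2 ⊕ Fin 2) × Idx n) = _
      rw [Fintype.card_prod]
      simp
    omega

theorem pair_noncomm (n : ℕ) (p q : Idx n) (h : p ≠ q) :
    (mk 1 1 (Pi.single 0 (single p p 1)) : Gr n) * ia (tv p q h) ≠
      ia (tv p q h) * mk 1 1 (Pi.single 0 (single p p 1)) := by
  intro h0
  rw [show ia (tv p q h) = mk (tv p q h) 1 0 from rfl, mk_mul, mk_mul] at h0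
  have h1 := congrArg (fun z : Gr n => (z : T (Mat n)).u 0) h0
  simp only [mk_u, Pi.single_eq_same, Pi.zero_apply, mul_zero, zero_add, add_zero,
    Units.val_one, one_mul, tv_val, mul_add, mul_one, single_mul_single_same, add_eq_left] at h1
  have h2 := congrFun (congrFun h1 p) q
  rw [single_apply_same] at h2
  exact absurd h2 (by rw [Matrix.zero_apply]; decide)

theorem pair_comm (n : ℕ) (p p' q : Idx n) (h : p' ≠ q) (hp : p ≠ p') :
    (mk 1 1 (Pi.single 0 (single p p 1)) : Gr n) * ia (tv p' q h) =
      ia (tv p' q h) * mk 1 1 (Pi.single 0 (single p p 1)) := by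
  rw [show ia (tv p' q h) = mk (tv p' q h) 1 0 from rfl, mk_mul, mk_mul]
  congr 1
  · rw [one_mul, mul_one]
  · funext j
    by_cases hj : j = 0
    · subst hj
      simp only [Pi.single_eq_same, Pi.zero_apply, mul_zero, zero_add, add_zero,
        Units.val_one, one_mul, tv_val, mul_add, mul_one]
      rw [single_mul_single_of_ne, add_zero]
      exact hp
    · simp [Pi.single_eq_of_ne hj]

theorem main : ∃ (L : Type) (_ : Group L), IsSimpleGroup L ∧
    (∀ s : Finset L, Finite (Subgroup.closure (s : Set L))) ∧
    (∃ H : Subgroup L, Finite H ∧ Finite (Subgroup.centralizer (H : Set L))) ∧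
    ¬ ∃ (K : Type) (_ : Field K) (n : ℕ)
        (f : L →* Matrix.GeneralLinearGroup (Fin n) K), Function.Injective f := by
  obtain ⟨L, instL, of, hinj, hcomp, hsurj⟩ := exists_limit step step_injective
  have hmono : ∀ n m, n ≤ m → (of n).range ≤ (of m).range := by
    intro n m hnm
    induction m, hnm using Nat.le_induction with
    | base => exact le_rfl
    | succ m _ ih =>
      refine ih.trans ?_
      rintro _ ⟨x, rfl⟩
      exact ⟨step m x, hcomp m x⟩
  refine ⟨L, instL, ?_, ?_, ?_, ?_⟩
  · -- simplicity
    have hne : (mk 1 1 (fun _ => 1) : Gr 0) ≠ 1 := by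
      intro h
      have h1 := congrArg (fun z : Gr 0 => (z : T (Mat 0)).u 0) h
      simp only [mk_u, Units.val_one, T.one_u] at h1
      have h2 := congrFun (congrFun h1 (0 : Fin 2)) (0 : Fin 2)
      exact absurd (show (1 : ZMod 2) = 0 from h2) (by decide)
    have hnt : Nontrivial L := ⟨⟨of 0 (mk 1 1 (fun _ => 1)), 1, fun h => hne (hinj 0 (by
      rw [h, map_one]))⟩⟩
    refine ⟨fun N hN => ?_⟩
    by_cases hb : N = ⊥
    · exact Or.inl hb
    · right
      obtain ⟨⟨g, hgN⟩, hg1'⟩ := Subgroup.ne_bot_iff_exists_ne_one.1 hb
      have hg1 : g ≠ 1 := fun h => hg1' (Subtype.ext h)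
      rw [Subgroup.eq_top_iff']
      intro h
      obtain ⟨n, x, hx⟩ := hsurj g
      obtain ⟨m, y, hy⟩ := hsurj h
      obtain ⟨x', hx'⟩ := hmono n (max n m) (le_max_left _ _) ⟨x, hx⟩
      obtain ⟨y', hy'⟩ := hmono m (max n m) (le_max_right _ _) ⟨y, hy⟩
      have hK : (N.comap (of (max n m + 2))).Normal := Subgroup.Normal.comap hN _
      have htop := normal_step (max n m) x' (fun h => hg1 (by rw [← hx', h, map_one]))
        (N.comap (of (max n m + 2))) (by
          rw [Subgroup.mem_comap, hcomp, hcomp, hx']
          exact hgN)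
      have hmem : step (max n m + 1) (step (max n m) y') ∈ N.comap (of (max n m + 2)) := by
        rw [htop]
        trivial
      rw [Subgroup.mem_comap, hcomp, hcomp, hy'] at hmem
      exact hmem
  · -- local finiteness
    intro s
    have : ∃ n, (s : Set L) ⊆ (of n).range := by
      classical
      induction s using Finset.induction with
      | empty => exact ⟨0, by simp⟩
      | insert a s _ ih =>
        obtain ⟨n, hn⟩ := ih
        obtain ⟨m, y, hy⟩ := hsurj a
        refine ⟨max n m, ?_⟩
        rw [Finset.coe_insert]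
        apply Set.insert_subset
        · exact hmono m (max n m) (le_max_right _ _) ⟨y, hy⟩
        · exact hn.trans (hmono n (max n m) (le_max_left _ _))
    obtain ⟨n, hn⟩ := this
    have hle : Subgroup.closure (s : Set L) ≤ (of n).range := (Subgroup.closure_le _).2 hn
    have hfin : Finite (of n).range := Set.finite_range (of n)
    exact Finite.of_injective _ (Subgroup.inclusion_injective hle)
  · -- the finite subgroup with trivial centralizer
    refine ⟨(of 0).range, Set.finite_range (of 0), ?_⟩
    have h0 : ∀ n s, of n (toGr n s) = of 0 s := by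
      intro n s
      induction n with
      | zero => rfl
      | succ n ih =>
        rw [← ih, ← hcomp n (toGr n s)]
        rfl
    have hbot : Subgroup.centralizer ((of 0).range : Set L) = ⊥ := by
      rw [eq_bot_iff]
      intro g hg
      obtain ⟨n, x, rfl⟩ := hsurj g
      rw [Subgroup.mem_centralizer_iff] at hg
      have : x = 1 := by
        apply centralizer_trivial n x
        intro s
        apply hinj n
        rw [map_mul, map_mul, h0]
        exact hg _ ⟨s, rfl⟩
      rw [this, map_one]
      exact Subgroup.one_mem _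
    rw [hbot]
    infer_instance
  · -- non-linearity
    rintro ⟨K, _, N, f, hf⟩
    obtain ⟨q⟩ := instNonemptyIdx (N * N + 1)
    have hcard := card_le_of_linear f hf (σ := {p : Idx (N * N + 1) // p ≠ q})
      (fun p => of _ (mk 1 1 (Pi.single 0 (single p.1 p.1 1))))
      (fun p => of _ (ia (tv p.1 q p.2))) (fun p h => ?_) (fun p p' hp => ?_)
    · have h1 := card_Idx (N * N + 1)
      have h2 : Fintype.card {p : Idx (N * N + 1) // p ≠ q} = Fintype.card (Idx (N * N + 1)) - 1 := by
        rw [Fintype.card_subtype_compl, Fintype.card_subtype_eq]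
      omega
    · rw [← map_mul, ← map_mul] at h
      exact pair_noncomm _ _ _ _ (hinj _ h)
    · rw [← map_mul, ← map_mul, pair_comm _ _ _ _ _ (fun h => hp (Subtype.ext h))]

end Pool.Agent.Hartley56
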