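import Mathlib
import Pool.Agent.helper56.GrowthC

/-!
The conjectured formula `(2 k - 3) ^ (1 / μ(w))` for the growth of the set of cyclic words in the
orbit `Aut(F_k) · w` fails for every `k ≥ 3`, for the words `w = x_1 ^ p ⋯ x_k ^ p` with `p` an
odd prime: `μ(w) = p` while the growth is at least `(2 k - 3) ^ (1 / 2)`.
-/

set_option autoImplicit false

namespace Pool.Agent.Growth56.Fails

open Filter Pool.Agent.Growth56

/-- The orbit `Aut(F_k) · w`. -/
def orbit {k : ℕ} (w : FreeGroup (Fin k)) : Set (FreeGroup (Fin k)) :=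
  {g | ∃ φ : MulAut (FreeGroup (Fin k)), φ w = g}

/-- The number of occurrences of `x` and `x⁻¹` in the reduced word of `g`. -/
def occ {k : ℕ} (x : Fin k) (g : FreeGroup (Fin k)) : ℕ :=
  g.toWord.countP (fun a => a.1 = x)

/-- The smallest positive number of occurrences of `x ^ {±1}` in the reduced word of some element
of the orbit of `w`. -/
noncomputable def mu {k : ℕ} (x : Fin k) (w : FreeGroup (Fin k)) : ℕ :=
  sInf {n : ℕ | 0 < n ∧ ∃ g ∈ orbit w, occ x g = n}

/-- The set of cyclic words (conjugacy classes) contained in the orbit of `w`. -/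
def cyclicWords {k : ℕ} (w : FreeGroup (Fin k)) : Set (ConjClasses (FreeGroup (Fin k))) :=
  {c | c.carrier ⊆ orbit w}

/-- The members of length `N` of a set of cyclic words: the length of a cyclic word is the length
of any cyclically reduced word in the class. -/
def ofLength {k : ℕ} (S : Set (ConjClasses (FreeGroup (Fin k)))) (N : ℕ) :
    Set (ConjClasses (FreeGroup (Fin k))) :=
  {c | c ∈ S ∧ ∃ g ∈ c.carrier, FreeGroup.IsCyclicallyReduced g.toWord ∧ g.toWord.length = N}

/-- The growth `limsup |S_N| ^ (1 / N)` of a set of cyclic words. -/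
noncomputable def growth {k : ℕ} (S : Set (ConjClasses (FreeGroup (Fin k)))) : ℝ :=
  limsup (fun N : ℕ => ((ofLength S N).ncard : ℝ) ^ (1 / (N : ℝ))) atTop

/-- All cyclic words of length `N` come from words of length `N`. -/
theorem ofLength_bound {k : ℕ} (S : Set (ConjClasses (FreeGroup (Fin k)))) (N : ℕ) :
    (ofLength S N).Finite ∧ (ofLength S N).ncard ≤ (k * 2) ^ N := by
  classical
  let f : (Fin N → Fin k × Bool) → ConjClasses (FreeGroup (Fin k)) :=
    fun l => ConjClasses.mk (FreeGroup.mk (List.ofFn l))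
  have hsub : ofLength S N ⊆ Set.range f := by
    rintro c ⟨_, g, hg, _, hN⟩
    subst hN
    refine ⟨fun i => g.toWord.get i, ?_⟩
    change ConjClasses.mk (FreeGroup.mk (List.ofFn fun i => g.toWord.get i)) = c
    rw [List.ofFn_get, FreeGroup.mk_toWord]
    exact ConjClasses.mem_carrier_iff_mk_eq.1 hg
  have hfin : (Set.range f).Finite := Set.finite_range f
  refine ⟨hfin.subset hsub, ?_⟩
  calc (ofLength S N).ncard ≤ (Set.range f).ncard := Set.ncard_le_ncard hsub hfin
    _ ≤ Nat.card (Fin N → Fin k × Bool) := by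
        rw [← Set.image_univ, ← Set.ncard_univ]
        exact Set.ncard_image_le
    _ = (k * 2) ^ N := by simp

theorem growth_bounded {k : ℕ} (S : Set (ConjClasses (FreeGroup (Fin k)))) :
    IsBoundedUnder (· ≤ ·) atTop
      (fun N : ℕ => ((ofLength S N).ncard : ℝ) ^ (1 / (N : ℝ))) := by
  refine ⟨(k * 2 : ℕ) + 1, ?_⟩
  rw [Filter.eventually_map]
  filter_upwards [eventually_ge_atTop 1] with N hN
  have h1 : ((ofLength S N).ncard : ℝ) ≤ ((k * 2 : ℕ) : ℝ) ^ N := by
    exact_mod_cast (ofLength_bound S N).2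
  calc ((ofLength S N).ncard : ℝ) ^ (1 / (N : ℝ))
      ≤ (((k * 2 : ℕ) : ℝ) ^ N) ^ (1 / (N : ℝ)) := by
        apply Real.rpow_le_rpow (by positivity) h1 (by positivity)
    _ = ((k * 2 : ℕ) : ℝ) := by
        rw [← Real.rpow_natCast, ← Real.rpow_mul (by positivity)]
        rw [mul_one_div_cancel (by positivity), Real.rpow_one]
    _ ≤ (k * 2 : ℕ) + 1 := by linarith

theorem countP_pw {m : ℕ} (p : ℕ) (x : Fin (m + 3)) (l : List (Fin (m + 3))) :
    (pw p l).countP (fun a => a.1 = x) = l.count x * p := by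
  induction l with
  | nil => simp [pw]
  | cons i l ih =>
    have h2 : pw p (i :: l) = List.replicate p (i, true) ++ pw p l := by simp [pw]
    rw [h2, List.countP_append, ih, List.count_cons, List.countP_replicate]
    by_cases h : i = x
    · simp [h]
      ring
    · simp [h]

theorem toWord_ww (m p : ℕ) : (ww (m + 3) p).toWord = pw p (List.finRange (m + 3)) := by
  rw [ww, ← mk_pw, FreeGroup.toWord_mk]
  exact (reduced_of_true (pw_true _ _)).reduce_eq

theorem occ_ww (m p : ℕ) (x : Fin (m + 3)) : occ x (ww (m + 3) p) = p := by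
  rw [occ, toWord_ww, countP_pw, List.count_eq_one_of_mem (List.nodup_finRange _)
    (List.mem_finRange x), one_mul]

theorem mu_ww (m p : ℕ) (hp : p.Prime) (hp2 : p ≠ 2) (x : Fin (m + 3)) :
    mu x (ww (m + 3) p) = p := by
  have : Fact p.Prime := ⟨hp⟩
  have hmem : p ∈ {n : ℕ | 0 < n ∧ ∃ g ∈ orbit (ww (m + 3) p), occ x g = n} :=
    ⟨hp.pos, ww (m + 3) p, ⟨1, rfl⟩, occ_ww m p x⟩
  apply le_antisymm
  · exact Nat.sInf_le hmem
  · refine le_csInf ⟨p, hmem⟩ ?_
    rintro n ⟨_, g, ⟨φ, rfl⟩, rfl⟩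
    exact occ_ge hp2 x φ

theorem mem_cyclicWords {k : ℕ} (w : FreeGroup (Fin k)) (φ : MulAut (FreeGroup (Fin k))) :
    ConjClasses.mk (φ w) ∈ cyclicWords w := by
  intro g hg
  have h1 : ConjClasses.mk g = ConjClasses.mk (φ w) := ConjClasses.mem_carrier_iff_mk_eq.1 hg
  rw [ConjClasses.mk_eq_mk_iff_isConj] at h1
  obtain ⟨c, hc⟩ := isConj_iff.1 h1.symm
  exact ⟨MulAut.conj c * φ, by rw [MulAut.mul_apply, MulAut.conj_apply, hc]⟩

theorem card_lower (m p : ℕ) (hp : 0 < p) (n : ℕ) :
    (2 * m + 3) ^ n ≤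
      (ofLength (cyclicWords (ww (m + 3) p)) (2 * (n + 1) + (m + 3) * p)).ncard := by
  let a0 : Fin (m + 3) × Bool := (Fin.last (m + 2), true)
  have ha0 : a0.1 ≠ 0 := by
    intro h
    have := congrArg Fin.val h
    simp [a0] at this
  let F : (Fin n → Fin (2 * m + 3)) → ConjClasses (FreeGroup (Fin (m + 3))) :=
    fun f => ConjClasses.mk (FreeGroup.mk (Lw p (build a0 (List.ofFn f))))
  have hF : Function.Injective F := by
    intro f f' h
    have h1 := Lw_inj hp (build_reduced _ _) (build_ne_zero _ _ ha0) (build_head _ _)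
      (build_reduced _ _) (build_ne_zero _ _ ha0) (build_head _ _)
      (by rw [build_length, build_length]; simp) h
    exact List.ofFn_injective (build_inj _ _ _ h1)
  have hsub : Set.range F ⊆ ofLength (cyclicWords (ww (m + 3) p)) (2 * (n + 1) + (m + 3) * p) := by
    rintro _ ⟨f, rfl⟩
    refine ⟨?_, FreeGroup.mk (Lw p (build a0 (List.ofFn f))), ?_, ?_, ?_⟩
    · change ConjClasses.mk (FreeGroup.mk (Lw p (build a0 (List.ofFn f)))) ∈ _
      rw [mk_Lw p (build_ne_zero _ _ ha0)]
      exact mem_cyclicWords _ _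
    · exact ConjClasses.mem_carrier_mk
    · have h1 := Lw_cyc hp (build_reduced (List.ofFn f) a0) (build_ne_zero _ _ ha0)
        (build_head _ _)
      rw [FreeGroup.toWord_mk, h1.isReduced.reduce_eq]
      exact h1
    · have h1 := Lw_cyc hp (build_reduced (List.ofFn f) a0) (build_ne_zero _ _ ha0)
        (build_head _ _)
      rw [FreeGroup.toWord_mk, h1.isReduced.reduce_eq, Lw_length, build_length]
      simp
  calc (2 * m + 3) ^ n = (Set.range F).ncard := by
        rw [← Set.image_univ, Set.ncard_image_of_injective _ hF, Set.ncard_univ]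
        simp
    _ ≤ _ := Set.ncard_le_ncard hsub (ofLength_bound _ _).1

theorem growth_lower (m p : ℕ) (hp : 0 < p) :
    ((2 * m + 3 : ℕ) : ℝ) ^ ((1 : ℝ) / 2) ≤ growth (cyclicWords (ww (m + 3) p)) := by
  apply le_of_forall_lt
  intro c hc
  -- the exponents tend to `1 / 2`
  have hlim : Tendsto (fun n : ℕ => ((2 * m + 3 : ℕ) : ℝ) ^
      ((n : ℝ) / ((2 * (n + 1) + (m + 3) * p : ℕ) : ℝ))) atTop
      (nhds (((2 * m + 3 : ℕ) : ℝ) ^ ((1 : ℝ) / 2))) := by
    have h0 : ((2 * m + 3 : ℕ) : ℝ) ≠ 0 := by positivity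
    refine (Real.continuousAt_const_rpow h0).tendsto.comp ?_
    have h1 : Tendsto (fun n : ℕ => (1 : ℝ) / (2 + ((2 + (m + 3) * p : ℕ) : ℝ) / (n : ℝ))) atTop
        (nhds (1 / (2 + 0))) := by
      apply Tendsto.div tendsto_const_nhds _ (by norm_num)
      exact Tendsto.add tendsto_const_nhds (tendsto_const_div_atTop_nhds_zero_nat _)
    rw [add_zero] at h1
    refine h1.congr' ?_
    filter_upwards [eventually_gt_atTop 0] with n hn
    have hn' : (n : ℝ) ≠ 0 := by positivity
    push_cast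
    field_simp
    ring_nf
  obtain ⟨c', hc1, hc2⟩ := exists_between hc
  have hev := hlim.eventually (lt_mem_nhds hc2)
  refine lt_of_lt_of_le hc1 ?_
  apply le_limsup_of_frequently_le _ (growth_bounded _)
  rw [frequently_atTop]
  intro N
  obtain ⟨n, hn, hnN⟩ := (hev.and (eventually_ge_atTop N)).exists
  refine ⟨2 * (n + 1) + (m + 3) * p, by omega, ?_⟩
  refine hn.le.trans ?_
  have h1 : (((2 * m + 3 : ℕ) : ℝ)) ^ n ≤
      ((ofLength (cyclicWords (ww (m + 3) p)) (2 * (n + 1) + (m + 3) * p)).ncard : ℝ) := by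
    exact_mod_cast card_lower m p hp n
  calc ((2 * m + 3 : ℕ) : ℝ) ^ ((n : ℝ) / ((2 * (n + 1) + (m + 3) * p : ℕ) : ℝ))
      = (((2 * m + 3 : ℕ) : ℝ) ^ n) ^ (1 / ((2 * (n + 1) + (m + 3) * p : ℕ) : ℝ)) := by
        rw [← Real.rpow_natCast, ← Real.rpow_mul (by positivity)]
        congr 1
        ring
    _ ≤ _ := Real.rpow_le_rpow (by positivity) h1 (by positivity)

/-- For every `k ≥ 3` and every odd prime `p`, every element of the orbit of the word
`w = x_1 ^ p ⋯ x_k ^ p` contains every letter at least `p` times and `μ(w) = p`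
(with respect to every letter), but the growth of the set of cyclic words in its orbit is at least
`(2 k - 3) ^ (1 / 2)`. In particular the growth is not `(2 k - 3) ^ (1 / μ(w))`. -/
theorem result (k : ℕ) (hk : 3 ≤ k) (p : ℕ) (hp : p.Prime) (hp2 : p ≠ 2)
    (w : FreeGroup (Fin k))
    (hw : w = ((List.finRange k).map (fun i => FreeGroup.of i ^ p)).prod) :
    w ≠ 1 ∧ (∀ g ∈ orbit w, ∀ x : Fin k, p ≤ occ x g) ∧ (∀ x : Fin k, mu x w = p) ∧
      (2 * (k : ℝ) - 3) ^ ((1 : ℝ) / 2) ≤ growth (cyclicWords w) ∧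
      ∀ x : Fin k, (2 * (k : ℝ) - 3) ^ ((1 : ℝ) / (mu x w : ℝ)) < growth (cyclicWords w) := by
  obtain ⟨m, rfl⟩ : ∃ m, k = m + 3 := ⟨k - 3, by omega⟩
  have hww : w = ww (m + 3) p := hw
  subst hww
  have hcast : (2 * ((m + 3 : ℕ) : ℝ) - 3) = ((2 * m + 3 : ℕ) : ℝ) := by
    push_cast
    ring
  rw [hcast]
  have hmu := mu_ww m p hp hp2
  have hgr := growth_lower m p hp.pos
  refine ⟨?_, ?_, hmu, hgr, ?_⟩
  · intro h
    have := occ_ww m p 0
    rw [h] at this
    simp [occ] at this
    exact hp.ne_zero this.symm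
  · rintro g ⟨φ, rfl⟩ x
    have : Fact p.Prime := ⟨hp⟩
    exact occ_ge hp2 x φ
  · intro x
    rw [hmu x]
    refine lt_of_lt_of_le ?_ hgr
    apply Real.rpow_lt_rpow_of_exponent_lt
    · exact_mod_cast (by omega : 1 < 2 * m + 3)
    · have h3 : 2 < p := lt_of_le_of_ne hp.two_le hp2.symm
      apply one_div_lt_one_div_of_lt (by norm_num)
      exact_mod_cast h3

end Pool.Agent.Growth56.Fails
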